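import Pool.Agent.H158.GM.Stm

set_option autoImplicit false

namespace Pool.Agent.H158.GM

open Finset Filter Topology

namespace Ampl

/-- one dyadic block -/
lemma block (Z' : Finset ℝ) (D : ℝ → ℝ) (c T U y : ℝ) (hc : 0 < c) (hT : 1 ≤ T)
    (h1 : c / 5 * Real.log T ^ (1 / 4 : ℝ) ≤ T / 2) (h2 : 5 ≤ Real.log T)
    (hU : Real.sqrt T ≤ U) (hU2 : 2 * U ≤ T)
    (hZ : ∀ t ∈ Z', U < t ∧ t ≤ 2 * U ∧ 0 < D t)
    (hs : c * U * Real.log U ^ (1 / 4 : ℝ) ≤ ∑ t ∈ Z', (D t)⁻¹)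
    (hy : 0 < y) (hyT : y ≤ 1 / T ^ 2) :
    c / 5 * Real.log T ^ (1 / 4 : ℝ) ≤ ∑ t ∈ Z', 1 / (t * (D t + y)) := by
  have hT0 : (0 : ℝ) < T := by linarith
  have hsq : 0 < Real.sqrt T := Real.sqrt_pos.2 hT0
  have hU0 : 0 < U := lt_of_lt_of_le hsq hU
  by_cases h : ∀ t ∈ Z', y ≤ D t
  · have hlog : Real.log T / 2 ≤ Real.log U := by
      rw [← Real.log_sqrt hT0.le]
      exact Real.log_le_log hsq hU
    have hpow : 4 / 5 * Real.log T ^ (1 / 4 : ℝ) ≤ Real.log U ^ (1 / 4 : ℝ) := by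
      have e : (4 / 5 : ℝ) = ((4 / 5 : ℝ) ^ (4 : ℕ)) ^ (1 / 4 : ℝ) := by
        rw [← Real.rpow_natCast, ← Real.rpow_mul (by norm_num)]
        norm_num
      rw [e, ← Real.mul_rpow (by positivity) (by linarith)]
      refine Real.rpow_le_rpow (by positivity) ?_ (by norm_num)
      have : ((4 / 5 : ℝ) ^ (4 : ℕ)) ≤ 1 / 2 := by norm_num
      nlinarith
    calc c / 5 * Real.log T ^ (1 / 4 : ℝ) = c / 4 * (4 / 5 * Real.log T ^ (1 / 4 : ℝ)) := by ring
      _ ≤ c / 4 * Real.log U ^ (1 / 4 : ℝ) := by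
          exact mul_le_mul_of_nonneg_left hpow (by positivity)
      _ = 1 / (4 * U) * (c * U * Real.log U ^ (1 / 4 : ℝ)) := by
          field_simp
      _ ≤ 1 / (4 * U) * ∑ t ∈ Z', (D t)⁻¹ := mul_le_mul_of_nonneg_left hs (by positivity)
      _ = ∑ t ∈ Z', 1 / (4 * U) * (D t)⁻¹ := by rw [Finset.mul_sum]
      _ ≤ ∑ t ∈ Z', 1 / (t * (D t + y)) := by
          refine Finset.sum_le_sum fun t ht => ?_
          obtain ⟨ha, hb, hd⟩ := hZ t ht
          have hyd := h t ht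
          have ht0 : 0 < t := lt_trans hU0 ha
          rw [← one_div, div_mul_div_comm, one_mul]
          refine one_div_le_one_div_of_le (by positivity) ?_
          have h3 : t * (D t + y) ≤ (2 * U) * (2 * D t) :=
            mul_le_mul hb (by linarith) (by positivity) (by positivity)
          linarith
  · push Not at h
    obtain ⟨t, ht, hdy⟩ := h
    obtain ⟨ha, hb, hd⟩ := hZ t ht
    have ht0 : 0 < t := lt_trans hU0 ha
    have h3 : t * (D t + y) ≤ T * (2 * y) :=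
      mul_le_mul (by linarith) (by linarith) (by positivity) (by positivity)
    have h4 : T * (2 * y) ≤ 2 / T := by
      have : T * (2 * y) ≤ T * (2 * (1 / T ^ 2)) := by
        refine mul_le_mul_of_nonneg_left ?_ hT0.le
        linarith
      refine this.trans (le_of_eq ?_)
      field_simp
    have h5 : T / 2 ≤ 1 / (t * (D t + y)) := by
      have h6 : t * (D t + y) ≤ 2 / T := h3.trans h4
      have h7 : 0 < t * (D t + y) := by positivity
      calc T / 2 = 1 / (2 / T) := by rw [one_div_div]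
        _ ≤ 1 / (t * (D t + y)) := one_div_le_one_div_of_le h7 h6
    refine h1.trans (h5.trans ?_)
    refine Finset.single_le_sum (f := fun t => 1 / (t * (D t + y))) (fun s hs' => ?_) ht
    obtain ⟨ha', hb', hd'⟩ := hZ s hs'
    have hs0 : 0 < s := lt_trans hU0 ha'
    positivity

lemma ev1 (c : ℝ) (hc : 0 < c) :
    ∀ᶠ T : ℝ in atTop, c / 5 * Real.log T ^ (1 / 4 : ℝ) ≤ T / 2 := by
  have h := (Asymptotics.isLittleO_iff.1 Real.isLittleO_log_id_atTop) (c := 5 / (2 * c)) (by positivity)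
  filter_upwards [h, Real.tendsto_log_atTop.eventually_ge_atTop 1, eventually_ge_atTop 0] with T h1 h2 h3
  have h4 : Real.log T ≤ 5 / (2 * c) * T := by
    have h5 := (le_abs_self (Real.log T)).trans (by simpa [Real.norm_eq_abs] using h1)
    rwa [abs_of_nonneg h3] at h5
  have h6 : Real.log T ^ (1 / 4 : ℝ) ≤ Real.log T := by
    calc Real.log T ^ (1 / 4 : ℝ) ≤ Real.log T ^ (1 : ℝ) :=
          Real.rpow_le_rpow_of_exponent_le h2 (by norm_num)
      _ = Real.log T := Real.rpow_one _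
  calc c / 5 * Real.log T ^ (1 / 4 : ℝ) ≤ c / 5 * (5 / (2 * c) * T) :=
        mul_le_mul_of_nonneg_left (h6.trans h4) (by positivity)
    _ = T / 2 := by field_simp

end Ampl

open Ampl in
/-- AMPL, with a bound for the number of elements of `S` (proof by helper168) -/
theorem t_ampl2 (Z : ℝ → Finset ℝ) (D : ℝ → ℝ) (c : ℝ) (hc : 0 < c)
    (H : ∀ᶠ T : ℝ in atTop, (∀ t ∈ Z T, T < t ∧ t ≤ 2 * T ∧ 0 < D t) ∧
      c * T * Real.log T ^ (1 / 4 : ℝ) ≤ ∑ t ∈ Z T, (D t)⁻¹)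
    (Hc : ∀ᶠ T : ℝ in atTop, ((Z T).card : ℝ) ≤ T ^ 2) :
    ∀ᶠ T : ℝ in atTop, ∃ S : Finset ℝ, (∀ t ∈ S, t ≤ T ∧ ∃ T' : ℝ, Real.sqrt T ≤ T' ∧ t ∈ Z T') ∧
      (S.card : ℝ) ≤ T ^ 3 ∧
      ∀ y : ℝ, 0 < y → y ≤ 1 / T ^ 2 →
        c / 100 * Real.log T ^ (5 / 4 : ℝ) ≤ ∑ t ∈ S, 1 / (t * (D t + y)) := by
  obtain ⟨T0, hT0'⟩ := eventually_atTop.1 (H.and Hc)
  have hT0 := fun T hT => (hT0' T hT).1
  filter_upwards [ev1 c hc, Real.tendsto_log_atTop.eventually_ge_atTop 5,
    Real.tendsto_sqrt_atTop.eventually_ge_atTop T0, eventually_ge_atTop 1] with T h1 h2 h3 h4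
  have hTp : (0 : ℝ) < T := by linarith
  set K : ℕ := ⌊Real.log T / (2 * Real.log 2)⌋₊ with hK
  have hl2 : 0 < Real.log 2 := Real.log_pos (by norm_num)
  have hK1 : (K : ℝ) ≤ Real.log T / (2 * Real.log 2) := Nat.floor_le (by positivity)
  have hpow : ∀ k < K, (2 : ℝ) ^ (k + 1) ≤ Real.sqrt T := by
    intro k hk
    have h5 : ((k + 1 : ℕ) : ℝ) ≤ K := by exact_mod_cast hk
    have h6 : ((k + 1 : ℕ) : ℝ) * Real.log 2 ≤ Real.log T / 2 := by
      have h7 : ((k + 1 : ℕ) : ℝ) ≤ Real.log T / (2 * Real.log 2) := h5.trans hK1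
      rw [le_div_iff₀ (by positivity)] at h7
      linarith
    rw [← Real.log_sqrt hTp.le, ← Real.log_pow] at h6
    exact (Real.log_le_log_iff (by positivity) (Real.sqrt_pos.2 hTp)).1 h6
  have hU : ∀ k < K, Real.sqrt T ≤ T / 2 ^ (k + 1) := by
    intro k hk
    rw [le_div_iff₀ (by positivity)]
    calc Real.sqrt T * 2 ^ (k + 1) ≤ Real.sqrt T * Real.sqrt T :=
          mul_le_mul_of_nonneg_left (hpow k hk) (Real.sqrt_nonneg _)
      _ = T := Real.mul_self_sqrt hTp.le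
  have hU2 : ∀ k : ℕ, 2 * (T / 2 ^ (k + 1)) = T / 2 ^ k := by
    intro k
    rw [pow_succ]
    field_simp
  have hUT : ∀ k : ℕ, T / 2 ^ k ≤ T := by
    intro k
    exact div_le_self hTp.le (one_le_pow₀ (by norm_num))
  have hmain : ∀ k < K, (∀ t ∈ Z (T / 2 ^ (k + 1)), T / 2 ^ (k + 1) < t ∧ t ≤ 2 * (T / 2 ^ (k + 1)) ∧ 0 < D t) ∧
      c * (T / 2 ^ (k + 1)) * Real.log (T / 2 ^ (k + 1)) ^ (1 / 4 : ℝ) ≤ ∑ t ∈ Z (T / 2 ^ (k + 1)), (D t)⁻¹ :=
    fun k hk => hT0 _ (h3.trans (hU k hk))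
  refine ⟨(Finset.range K).biUnion (fun k => Z (T / 2 ^ (k + 1))), ?_, ?_, ?_⟩
  · intro t ht
    rw [Finset.mem_biUnion] at ht
    obtain ⟨k, hk, htk⟩ := ht
    have hk' := Finset.mem_range.1 hk
    refine ⟨?_, T / 2 ^ (k + 1), hU k hk', htk⟩
    have := ((hmain k hk').1 t htk).2.1
    rw [hU2] at this
    exact this.trans (hUT k)
  · have hcard : (((Finset.range K).biUnion (fun k => Z (T / 2 ^ (k + 1)))).card : ℝ) ≤
        ∑ k ∈ Finset.range K, ((Z (T / 2 ^ (k + 1))).card : ℝ) := by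
      exact_mod_cast Finset.card_biUnion_le
    refine hcard.trans ?_
    have h5 : ∑ k ∈ Finset.range K, ((Z (T / 2 ^ (k + 1))).card : ℝ) ≤ ∑ _k ∈ Finset.range K, T ^ 2 := by
      refine Finset.sum_le_sum fun k hk => ?_
      have hk' := Finset.mem_range.1 hk
      refine (hT0' _ (h3.trans (hU k hk'))).2.trans ?_
      refine pow_le_pow_left₀ (by positivity) ?_ 2
      exact hUT (k + 1)
    rw [Finset.sum_const, Finset.card_range, nsmul_eq_mul] at h5
    refine h5.trans ?_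
    have h6 : (K : ℝ) ≤ T := by
      refine hK1.trans ?_
      rw [div_le_iff₀ (by positivity)]
      have h7 := Real.log_two_gt_d9
      have h8 := Real.log_le_sub_one_of_pos hTp
      nlinarith
    calc (K : ℝ) * T ^ 2 ≤ T * T ^ 2 := mul_le_mul_of_nonneg_right h6 (by positivity)
      _ = T ^ 3 := by ring
  · intro y hy hyT
    have hdisj : (↑(Finset.range K) : Set ℕ).PairwiseDisjoint (fun k => Z (T / 2 ^ (k + 1))) := by
      have key : ∀ i j : ℕ, i < K → j < K → i < j →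
          Disjoint (Z (T / 2 ^ (i + 1))) (Z (T / 2 ^ (j + 1))) := by
        intro i j hi hj hij
        rw [Finset.disjoint_left]
        intro t hti htj
        have a1 := ((hmain i hi).1 t hti).1
        have a2 := ((hmain j hj).1 t htj).2.1
        rw [hU2] at a2
        have a3 : T / 2 ^ j ≤ T / 2 ^ (i + 1) :=
          div_le_div_of_nonneg_left hTp.le (by positivity) (pow_le_pow_right₀ (by norm_num) hij)
        linarith
      intro i hi j hj hij
      have hi' := Finset.mem_range.1 (Finset.mem_coe.1 hi)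
      have hj' := Finset.mem_range.1 (Finset.mem_coe.1 hj)
      rcases lt_or_gt_of_ne hij with h | h
      · exact key i j hi' hj' h
      · exact (key j i hj' hi' h).symm
    rw [Finset.sum_biUnion hdisj]
    have hblock : ∀ k ∈ Finset.range K, c / 5 * Real.log T ^ (1 / 4 : ℝ) ≤
        ∑ t ∈ Z (T / 2 ^ (k + 1)), 1 / (t * (D t + y)) := by
      intro k hk
      have hk' := Finset.mem_range.1 hk
      refine block _ D c T (T / 2 ^ (k + 1)) y hc h4 h1 h2 (hU k hk') ?_ (hmain k hk').1 (hmain k hk').2 hy hyT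
      rw [hU2]
      exact hUT k
    have hsum := Finset.card_nsmul_le_sum _ _ _ hblock
    rw [Finset.card_range, nsmul_eq_mul] at hsum
    refine le_trans ?_ hsum
    have hK2 : Real.log T / 2 ≤ K := by
      have h5 := Nat.lt_floor_add_one (Real.log T / (2 * Real.log 2))
      rw [← hK] at h5
      have h6 : Real.log T * (7 / 10) ≤ Real.log T / (2 * Real.log 2) := by
        rw [le_div_iff₀ (by positivity)]
        have h7 := Real.log_two_lt_d9
        nlinarith
      linarith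
    have hp0 : 0 ≤ Real.log T ^ (1 / 4 : ℝ) := Real.rpow_nonneg (by linarith) _
    have he : Real.log T ^ (5 / 4 : ℝ) = Real.log T * Real.log T ^ (1 / 4 : ℝ) := by
      rw [show (5 / 4 : ℝ) = 1 + 1 / 4 by norm_num, Real.rpow_add (by linarith), Real.rpow_one]
    rw [he]
    calc c / 100 * (Real.log T * Real.log T ^ (1 / 4 : ℝ))
        ≤ c / 10 * (Real.log T * Real.log T ^ (1 / 4 : ℝ)) := by
          have : 0 ≤ Real.log T * Real.log T ^ (1 / 4 : ℝ) := mul_nonneg (by linarith) hp0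
          nlinarith
      _ = Real.log T / 2 * (c / 5 * Real.log T ^ (1 / 4 : ℝ)) := by ring
      _ ≤ K * (c / 5 * Real.log T ^ (1 / 4 : ℝ)) :=
          mul_le_mul_of_nonneg_right hK2 (by positivity)

end Pool.Agent.H158.GM
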