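import Pool.Agent.H158.GM.Stm

/-! # Riesz products over a finite set -/

set_option autoImplicit false

namespace Pool.Agent.H158.GM

open Finset Filter Topology

namespace Riesz

/-- finite combinations of the functions `e w`, `w ∈ V`, with coefficients of total size at most `K` -/
def TP (e : ℝ → ℝ → ℂ) (V : Set ℝ) (K : ℝ) (f : ℝ → ℂ) : Prop :=
  ∃ (ι : Type) (_ : Fintype ι) (c : ι → ℂ) (w : ι → ℝ), (∀ i, w i ∈ V) ∧ ∑ i, ‖c i‖ ≤ K ∧
    ∀ v, f v = ∑ i, c i * e (w i) v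

theorem TP.zero (e : ℝ → ℝ → ℂ) (V : Set ℝ) : TP e V 0 (fun _ => 0) :=
  ⟨Fin 0, inferInstance, fun _ => 0, fun _ => 0, fun i => i.elim0, by simp, fun v => by simp⟩

theorem TP.add {e : ℝ → ℝ → ℂ} {V : Set ℝ} {K K' : ℝ} {f g : ℝ → ℂ} (hf : TP e V K f)
    (hg : TP e V K' g) : TP e V (K + K') (fun v => f v + g v) := by
  obtain ⟨ι, _, c, w, h1, h2, h3⟩ := hf
  obtain ⟨κ, _, c', w', h1', h2', h3'⟩ := hg
  refine ⟨ι ⊕ κ, inferInstance, Sum.elim c c', Sum.elim w w', ?_, ?_, ?_⟩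
  · rintro (i | i)
    · exact h1 i
    · exact h1' i
  · rw [Fintype.sum_sum_type]
    exact add_le_add h2 h2'
  · intro v
    rw [Fintype.sum_sum_type]
    show f v + g v = _
    rw [h3, h3']
    rfl

theorem TP.mono {e : ℝ → ℝ → ℂ} {V V' : Set ℝ} {K K' : ℝ} {f : ℝ → ℂ} (hf : TP e V K f)
    (hV : ∀ x ∈ V, x ∈ V') (hK : K ≤ K') : TP e V' K' f := by
  obtain ⟨ι, _, c, w, h1, h2, h3⟩ := hf
  exact ⟨ι, inferInstance, c, w, fun i => hV _ (h1 i), h2.trans hK, h3⟩

theorem TP.mul {e : ℝ → ℝ → ℂ} (he : ∀ a b v, e (a + b) v = e a v * e b v) {V V' : Set ℝ} {K : ℝ}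
    {f : ℝ → ℂ} (hf : TP e V K f) (a : ℝ) (c₁ c₂ : ℂ) (hc : ‖c₁‖ + ‖c₂‖ ≤ 1)
    (hV : ∀ x ∈ V, x + a ∈ V' ∧ x + -a ∈ V') :
    TP e V' K (fun v => f v * (c₁ * e a v + c₂ * e (-a) v)) := by
  obtain ⟨ι, _, c, w, h1, h2, h3⟩ := hf
  refine ⟨ι ⊕ ι, inferInstance, Sum.elim (fun i => c i * c₁) (fun i => c i * c₂),
    Sum.elim (fun i => w i + a) (fun i => w i + -a), ?_, ?_, ?_⟩
  · rintro (i | i)
    · exact (hV _ (h1 i)).1
    · exact (hV _ (h1 i)).2
  · rw [Fintype.sum_sum_type]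
    simp only [Sum.elim_inl, Sum.elim_inr, norm_mul]
    rw [← Finset.sum_mul, ← Finset.sum_mul, ← mul_add]
    have h0 : 0 ≤ ∑ i, ‖c i‖ := Finset.sum_nonneg fun i _ => norm_nonneg _
    calc (∑ i, ‖c i‖) * (‖c₁‖ + ‖c₂‖) ≤ (∑ i, ‖c i‖) * 1 := mul_le_mul_of_nonneg_left hc h0
      _ ≤ K := by rw [mul_one]; exact h2
  · intro v
    rw [Fintype.sum_sum_type]
    simp only [Sum.elim_inl, Sum.elim_inr, he]
    show f v * _ = _
    rw [h3, ← Finset.sum_add_distrib, Finset.sum_mul]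
    refine Finset.sum_congr rfl fun i _ => ?_
    ring

theorem W_update {m : ℕ} {S : Finset ℝ} {a : ℝ} (ha : a ∉ S) {x : ℝ} (hx : x ∈ W m S) (s : ℤ)
    (hs : |s| ≤ 1) (m' : ℕ) (hm : m' ≤ m ∨ (s ≠ 0 ∧ m' ≤ m + 1)) :
    x + (s : ℝ) * a ∈ W m' (insert a S) := by
  obtain ⟨p, h1, h2, h3⟩ := hx
  have hne : ∀ t ∈ S, t ≠ a := fun t ht h => ha (h ▸ ht)
  have hup : ∀ t ∈ S, Function.update p a s t = p t := fun t ht =>
    Function.update_of_ne (hne t ht) _ _
  have hfil : S.filter (fun t => Function.update p a s t ≠ 0) = S.filter (fun t => p t ≠ 0) :=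
    Finset.filter_congr fun t ht => by rw [hup t ht]
  refine ⟨Function.update p a s, ?_, ?_, ?_⟩
  · intro t ht
    rcases Finset.mem_insert.1 ht with rfl | ht
    · rw [Function.update_self]; exact hs
    · rw [hup t ht]; exact h1 t ht
  · rw [Finset.filter_insert]
    split_ifs with h
    · rw [Finset.card_insert_of_notMem (fun h' => ha (Finset.mem_filter.1 h').1), hfil]
      omega
    · rw [hfil]
      rw [Function.update_self] at h
      omega
  · rw [Finset.sum_insert ha, Function.update_self, h3, add_comm]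
    congr 1
    exact Finset.sum_congr rfl fun t ht => by rw [hup t ht]

theorem W_anti {m m' : ℕ} {S : Finset ℝ} (h : m' ≤ m) {x : ℝ} (hx : x ∈ W m S) : x ∈ W m' S := by
  obtain ⟨p, h1, h2, h3⟩ := hx
  exact ⟨p, h1, h.trans h2, h3⟩

theorem W_zero (S : Finset ℝ) : (0 : ℝ) ∈ W 0 S :=
  ⟨fun _ => 0, fun _ _ => by simp, Nat.zero_le _, by simp⟩

theorem W_insert {m : ℕ} {S : Finset ℝ} {a : ℝ} (ha : a ∉ S) {x : ℝ} (hx : x ∈ W m S) :
    x ∈ W m (insert a S) := by
  have h := W_update ha hx 0 (by simp) m (Or.inl le_rfl)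
  simpa using h

theorem W_pm {m : ℕ} {S : Finset ℝ} {a : ℝ} (ha : a ∉ S) {x : ℝ} (hx : x ∈ W m S) :
    x + a ∈ W (m + 1) (insert a S) ∧ x + -a ∈ W (m + 1) (insert a S) := by
  constructor
  · have h := W_update ha hx 1 (by simp) (m + 1) (Or.inr ⟨one_ne_zero, le_rfl⟩)
    simpa using h
  · have h := W_update ha hx (-1) (by simp) (m + 1) (Or.inr ⟨by simp, le_rfl⟩)
    simpa using h

theorem re_eq {e : ℝ → ℝ → ℂ} (hconj : ∀ a v, (starRingEnd ℂ) (e a v) = e (-a) v) (z : ℂ) (a v : ℝ) :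
    (((z * e a v).re : ℝ) : ℂ) = z / 2 * e a v + (starRingEnd ℂ) z / 2 * e (-a) v := by
  rw [Complex.re_eq_add_conj, map_mul, hconj]
  ring

theorem main {e : ℝ → ℝ → ℂ} (he : ∀ a b v, e (a + b) v = e a v * e b v)
    (hconj : ∀ a v, (starRingEnd ℂ) (e a v) = e (-a) v) (h0 : ∀ v, e 0 v = 1) (u : ℝ → ℂ)
    (S : Finset ℝ) : (∀ t ∈ S, ‖u t‖ ≤ 1) →
    TP e (W 1 S) (2 ^ S.card - 1) (fun v => ((∏ t ∈ S, (1 + (u t * e t v).re) : ℝ) : ℂ) - 1) ∧
    TP e (W 2 S) (2 ^ S.card - 1) (fun v => ((∏ t ∈ S, (1 + (u t * e t v).re) : ℝ) : ℂ) - 1 -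
      ∑ t ∈ S, (((u t * e t v).re : ℝ) : ℂ)) := by
  induction S using Finset.induction_on with
  | empty =>
    intro _
    have h1 := TP.zero e (W 1 ∅)
    have h2 := TP.zero e (W 2 ∅)
    constructor
    · simpa using h1
    · simpa using h2
  | insert a S ha ih =>
    intro hu
    obtain ⟨hQ, hR⟩ := ih fun t ht => hu t (Finset.mem_insert_of_mem ht)
    have hua : ‖u a‖ ≤ 1 := hu a (Finset.mem_insert_self a S)
    have hc : ‖u a / 2‖ + ‖(starRingEnd ℂ) (u a) / 2‖ ≤ 1 := by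
      rw [norm_div, norm_div, RCLike.norm_conj]
      have h2 : ‖(2 : ℂ)‖ = 2 := by simp
      rw [h2]
      linarith
    -- the linear function
    have hone : TP e {0} 1 (fun _ => (1 : ℂ)) :=
      ⟨Unit, inferInstance, fun _ => 1, fun _ => 0, fun _ => rfl, by simp, fun v => by simp [h0]⟩
    have hE : TP e (W 1 (insert a S)) 1 (fun v => (((u a * e a v).re : ℝ) : ℂ)) := by
      have h1 := hone.mul he a (u a / 2) ((starRingEnd ℂ) (u a) / 2) hc
        (V' := W 1 (insert a S)) (by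
          intro x hx
          rw [Set.mem_singleton_iff.1 hx]
          exact W_pm ha (W_zero S))
      simp only [one_mul] at h1
      simpa only [re_eq hconj] using h1
    have hQE : TP e (W 2 (insert a S)) (2 ^ S.card - 1)
        (fun v => (((∏ t ∈ S, (1 + (u t * e t v).re) : ℝ) : ℂ) - 1) *
          (((u a * e a v).re : ℝ) : ℂ)) := by
      have h1 := hQ.mul he a (u a / 2) ((starRingEnd ℂ) (u a) / 2) hc
        (V' := W 2 (insert a S)) (fun x hx => W_pm ha hx)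
      simpa only [re_eq hconj] using h1
    have hcard : (insert a S).card = S.card + 1 := Finset.card_insert_of_notMem ha
    have hprod : ∀ v, ((∏ t ∈ insert a S, (1 + (u t * e t v).re) : ℝ) : ℂ) =
        (1 + (((u a * e a v).re : ℝ) : ℂ)) * ((∏ t ∈ S, (1 + (u t * e t v).re) : ℝ) : ℂ) := by
      intro v
      rw [Finset.prod_insert ha, Complex.ofReal_mul, Complex.ofReal_add, Complex.ofReal_one]
    have hsum : ∀ v, ∑ t ∈ insert a S, (((u t * e t v).re : ℝ) : ℂ) =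
        (((u a * e a v).re : ℝ) : ℂ) + ∑ t ∈ S, (((u t * e t v).re : ℝ) : ℂ) := by
      intro v
      rw [Finset.sum_insert ha]
    constructor
    · have h1 := ((hQ.mono (fun x hx => W_insert ha hx) le_rfl).add hE).add
        (hQE.mono (fun x hx => W_anti (by norm_num) hx) le_rfl)
      have h2 := h1.mono (V' := W 1 (insert a S)) (K' := 2 ^ (insert a S).card - 1)
        (fun x hx => hx) (by rw [hcard, pow_succ]; linarith)
      have h3 : (fun v => ((∏ t ∈ insert a S, (1 + (u t * e t v).re) : ℝ) : ℂ) - 1) =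
          fun v => (((∏ t ∈ S, (1 + (u t * e t v).re) : ℝ) : ℂ) - 1) +
            (((u a * e a v).re : ℝ) : ℂ) +
            (((∏ t ∈ S, (1 + (u t * e t v).re) : ℝ) : ℂ) - 1) * (((u a * e a v).re : ℝ) : ℂ) := by
        funext v
        rw [hprod]
        ring
      rw [h3]
      exact h2
    · have h1 := (hR.mono (fun x hx => W_insert ha hx) le_rfl).add hQE
      have h2 := h1.mono (V' := W 2 (insert a S)) (K' := 2 ^ (insert a S).card - 1)
        (fun x hx => hx) (by rw [hcard, pow_succ]; linarith)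
      have h3 : (fun v => ((∏ t ∈ insert a S, (1 + (u t * e t v).re) : ℝ) : ℂ) - 1 -
          ∑ t ∈ insert a S, (((u t * e t v).re : ℝ) : ℂ)) =
          fun v => (((∏ t ∈ S, (1 + (u t * e t v).re) : ℝ) : ℂ) - 1 -
            ∑ t ∈ S, (((u t * e t v).re : ℝ) : ℂ)) +
            (((∏ t ∈ S, (1 + (u t * e t v).re) : ℝ) : ℂ) - 1) * (((u a * e a v).re : ℝ) : ℂ) := by
        funext v
        rw [hprod, hsum]
        ring
      rw [h3]
      exact h2

end Riesz

theorem t_riesz : P_RIESZ := by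
  intro e he hconj h0 S u hu
  obtain ⟨ι, _, c, w, h1, h2, h3⟩ := (Riesz.main he hconj h0 u S hu).2
  refine ⟨Fintype.card ι, fun i => c ((Fintype.equivFin ι).symm i),
    fun i => w ((Fintype.equivFin ι).symm i), fun i => h1 _, ?_, ?_⟩
  · rw [Equiv.sum_comp (Fintype.equivFin ι).symm (fun i => ‖c i‖)]
    linarith
  · intro v
    rw [Equiv.sum_comp (Fintype.equivFin ι).symm (fun i => c i * e (w i) v), ← h3 v]
    ring

end Pool.Agent.H158.GM
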