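import Pool.Agent.H198.GM.Side
import Pool.Agent.H158.GM.Riesz

set_option autoImplicit false

/-! Riesz products against Laplace transforms. -/

namespace Pool.Agent.H158.GM

open Filter Topology Set MeasureTheory Complex
open Pool.Agent.W263.BSD Pool.Agent.W120.WM Pool.Agent.Y853.HM Pool.Agent.H198.GM

theorem one {F : ℝ → ℝ} {w : ℝ} (hF : LInt F w) (t : ℝ) (u : ℂ) :
    IntegrableOn (fun v => F v * Real.exp (-(w * v)) * (u * ee t v).re) (Ioi 0) ∧
    ∫ v in Ioi (0 : ℝ), F v * Real.exp (-(w * v)) * (u * ee t v).re = (u * lapC F ((w : ℂ) + t * I)).re := by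
  obtain ⟨h1, h2⟩ := comb hF t u
  have hF' : IntegrableOn (fun v => F v * Real.exp (-(w * v))) (Ioi 0) := hF
  have e : (fun v => F v * Real.exp (-(w * v)) * (u * ee t v).re) =
      fun v => F v * Real.exp (-(w * v)) * (1 + (u * ee t v).re) - F v * Real.exp (-(w * v)) := by
    funext v; ring
  rw [e]
  refine ⟨h1.sub hF', ?_⟩
  rw [integral_sub h1 hF', h2]
  unfold lap
  ring

theorem ee_add (a b v : ℝ) : ee (a + b) v = ee a v * ee b v := by
  unfold ee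
  rw [← Complex.exp_add]
  congr 1
  push_cast
  ring

theorem ee_conj (a v : ℝ) : (starRingEnd ℂ) (ee a v) = ee (-a) v := by
  unfold ee
  rw [← Complex.exp_conj]
  congr 1
  rw [map_neg, map_mul, Complex.conj_I, Complex.conj_ofReal]
  push_cast
  ring

theorem ee_zero (v : ℝ) : ee 0 v = 1 := by
  unfold ee
  simp

/-- the Riesz product -/
noncomputable def wgt (S : Finset ℝ) (u : ℝ → ℂ) (v : ℝ) : ℝ := ∏ t ∈ S, (1 + (u t * ee t v).re)

theorem wgt_nonneg {S : Finset ℝ} {u : ℝ → ℂ} (hu : ∀ t ∈ S, ‖u t‖ ≤ 1) (v : ℝ) : 0 ≤ wgt S u v :=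
  Finset.prod_nonneg fun t ht => weight_nonneg (hu t ht) t v

/-- integrals against the Riesz product -/
theorem combS {F : ℝ → ℝ} {w : ℝ} (hF : LInt F w) (S : Finset ℝ) (u : ℝ → ℂ) {n : ℕ} (c : Fin n → ℂ) (ω : Fin n → ℝ)
    (hid : ∀ v : ℝ, ((wgt S u v : ℝ) : ℂ) = 1 + ∑ t ∈ S, (((u t * ee t v).re : ℝ) : ℂ) + ∑ i, c i * ee (ω i) v) :
    IntegrableOn (fun v => F v * Real.exp (-(w * v)) * wgt S u v) (Ioi 0) ∧
    ∫ v in Ioi (0 : ℝ), F v * Real.exp (-(w * v)) * wgt S u v =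
      lap F w + ∑ t ∈ S, (u t * lapC F ((w : ℂ) + t * I)).re + ∑ i, (c i * lapC F ((w : ℂ) + ω i * I)).re := by
  have hF' : IntegrableOn (fun v => F v * Real.exp (-(w * v))) (Ioi 0) := hF
  have hre : ∀ v : ℝ, wgt S u v = 1 + ∑ t ∈ S, (u t * ee t v).re + ∑ i, (c i * ee (ω i) v).re := by
    intro v
    have h := congrArg Complex.re (hid v)
    rw [Complex.ofReal_re, Complex.add_re, Complex.add_re, Complex.one_re, Complex.re_sum, Complex.re_sum] at h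
    rw [h]
    simp only [Complex.ofReal_re]
  have e : (fun v => F v * Real.exp (-(w * v)) * wgt S u v) =
      fun v => F v * Real.exp (-(w * v)) + ∑ t ∈ S, F v * Real.exp (-(w * v)) * (u t * ee t v).re +
        ∑ i, F v * Real.exp (-(w * v)) * (c i * ee (ω i) v).re := by
    funext v
    rw [hre v, mul_add, mul_add, mul_one, Finset.mul_sum, Finset.mul_sum]
  rw [e]
  have i1 : IntegrableOn (fun v => ∑ t ∈ S, F v * Real.exp (-(w * v)) * (u t * ee t v).re) (Ioi 0) :=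
    integrable_finset_sum S fun t _ => (one hF t (u t)).1
  have i2 : IntegrableOn (fun v => ∑ i, F v * Real.exp (-(w * v)) * (c i * ee (ω i) v).re) (Ioi 0) :=
    integrable_finset_sum _ fun i _ => (one hF (ω i) (c i)).1
  refine ⟨(hF'.add i1).add i2, ?_⟩
  have j1 : ∫ v in Ioi (0 : ℝ), ∑ t ∈ S, F v * Real.exp (-(w * v)) * (u t * ee t v).re =
      ∑ t ∈ S, (u t * lapC F ((w : ℂ) + t * I)).re := by
    rw [integral_finset_sum S fun t _ => (one hF t (u t)).1]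
    exact Finset.sum_congr rfl fun t _ => (one hF t (u t)).2
  have j2 : ∫ v in Ioi (0 : ℝ), ∑ i, F v * Real.exp (-(w * v)) * (c i * ee (ω i) v).re =
      ∑ i, (c i * lapC F ((w : ℂ) + ω i * I)).re := by
    rw [integral_finset_sum _ fun i _ => (one hF (ω i) (c i)).1]
    exact Finset.sum_congr rfl fun i _ => (one hF (ω i) (c i)).2
  have h3 := integral_add (hF'.add i1) i2
  have h4 := integral_add hF' i1
  simp only [Pi.add_apply] at h3 h4
  rw [h3, h4, j1, j2]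
  rfl

/-- comparison of two functions by means of the Riesz product -/
theorem compareS {F G : ℝ → ℝ} {w w' : ℝ} (hF : LInt F w) (hG : LInt G w')
    (h : ∀ v, 0 < v → F v * Real.exp (-(w * v)) ≤ G v * Real.exp (-(w' * v))) (S : Finset ℝ) {Q Q' : ℝ}
    (h0 : ∀ t ∈ S, t ∈ W 1 S) (h12 : ∀ x ∈ W 2 S, x ∈ W 1 S)
    (hQ : ∀ x ∈ W 2 S, ‖lapC F ((w : ℂ) + x * I)‖ ≤ Q) (hQ' : ∀ x ∈ W 1 S, ‖lapC G ((w' : ℂ) + x * I)‖ ≤ Q')
    (hQ0 : 0 ≤ Q) (hQ0' : 0 ≤ Q') :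
    lap F w + ∑ t ∈ S, ‖lapC F ((w : ℂ) + t * I)‖ ≤ lap G w' + 2 ^ (S.card + 1) * Q' + 2 ^ S.card * Q := by
  classical
  choose u hu hu2 using fun t : ℝ => unit_of (lapC F ((w : ℂ) + t * I))
  obtain ⟨n, c, ω, hω, hc, hid⟩ := t_riesz ee ee_add ee_conj ee_zero S u (fun t _ => hu t)
  obtain ⟨i1, e1⟩ := combS hF S u c ω hid
  obtain ⟨i2, e2⟩ := combS hG S u c ω hid
  have h1 : ∫ v in Ioi (0 : ℝ), F v * Real.exp (-(w * v)) * wgt S u v ≤
      ∫ v in Ioi (0 : ℝ), G v * Real.exp (-(w' * v)) * wgt S u v :=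
    setIntegral_mono_on i1 i2 measurableSet_Ioi fun (v : ℝ) (hv : v ∈ Ioi (0 : ℝ)) =>
      mul_le_mul_of_nonneg_right (h v (mem_Ioi.1 hv)) (wgt_nonneg (fun t _ => hu t) v)
  rw [e1, e2] at h1
  have k1 : ∑ t ∈ S, (u t * lapC F ((w : ℂ) + t * I)).re = ∑ t ∈ S, ‖lapC F ((w : ℂ) + t * I)‖ :=
    Finset.sum_congr rfl fun t _ => hu2 t
  have k2 : -(2 ^ S.card * Q) ≤ ∑ i, (c i * lapC F ((w : ℂ) + ω i * I)).re := by
    have : |∑ i, (c i * lapC F ((w : ℂ) + ω i * I)).re| ≤ 2 ^ S.card * Q := by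
      refine (Finset.abs_sum_le_sum_abs _ _).trans ?_
      calc ∑ i, |(c i * lapC F ((w : ℂ) + ω i * I)).re| ≤ ∑ i, ‖c i‖ * Q := by
            refine Finset.sum_le_sum fun i _ => ?_
            refine (Complex.abs_re_le_norm _).trans ?_
            rw [norm_mul]
            exact mul_le_mul_of_nonneg_left (hQ _ (hω i)) (norm_nonneg _)
        _ = (∑ i, ‖c i‖) * Q := by rw [Finset.sum_mul]
        _ ≤ 2 ^ S.card * Q := mul_le_mul_of_nonneg_right hc hQ0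
    exact (abs_le.1 this).1
  have k3 : ∑ i, (c i * lapC G ((w' : ℂ) + ω i * I)).re ≤ 2 ^ S.card * Q' := by
    calc ∑ i, (c i * lapC G ((w' : ℂ) + ω i * I)).re ≤ ∑ i, ‖c i‖ * Q' := by
          refine Finset.sum_le_sum fun i _ => ?_
          refine (Complex.re_le_norm _).trans ?_
          rw [norm_mul]
          exact mul_le_mul_of_nonneg_left (hQ' _ (h12 _ (hω i))) (norm_nonneg _)
      _ = (∑ i, ‖c i‖) * Q' := by rw [Finset.sum_mul]
      _ ≤ 2 ^ S.card * Q' := mul_le_mul_of_nonneg_right hc hQ0'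
  have k4 : ∑ t ∈ S, (u t * lapC G ((w' : ℂ) + t * I)).re ≤ 2 ^ S.card * Q' := by
    calc ∑ t ∈ S, (u t * lapC G ((w' : ℂ) + t * I)).re ≤ ∑ _t ∈ S, Q' := by
          refine Finset.sum_le_sum fun t ht => ?_
          refine (Complex.re_le_norm _).trans ?_
          rw [norm_mul]
          exact (mul_le_of_le_one_left (norm_nonneg _) (hu t)).trans (hQ' _ (h0 t ht))
      _ = S.card * Q' := by rw [Finset.sum_const, nsmul_eq_mul]
      _ ≤ 2 ^ S.card * Q' := by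
          refine mul_le_mul_of_nonneg_right ?_ hQ0'
          exact_mod_cast Nat.lt_two_pow_self.le
  rw [k1] at h1
  have e3 : (2 : ℝ) ^ (S.card + 1) * Q' = 2 ^ S.card * Q' + 2 ^ S.card * Q' := by rw [pow_succ]; ring
  rw [e3]
  linarith

/-- the Laplace transform of `M` near the critical line, at many points, under a one-sided pointwise bound -/
theorem sidedS {s B : ℝ} (hs : s = 1 ∨ s = -1) (hB : 0 < B) {v0 : ℝ} (hv0 : Real.exp 1 ≤ v0)
    (h : ∀ v, v0 ≤ v → s * f v ≤ B * q v) {δ : ℝ} (hδ : 0 < δ) (hδ1 : δ ≤ 1)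
    (hD : Real.exp (Real.exp 1) ≤ δ⁻¹) (hg : LInt g (1 / 2 + δ)) (S : Finset ℝ) {η' Q : ℝ} (hη' : 0 < η')
    (hδη : δ ≤ η') (h0 : ∀ t ∈ S, t ∈ W 1 S) (h12 : ∀ x ∈ W 2 S, x ∈ W 1 S) (hQ0 : 0 ≤ Q)
    (hW1 : ∀ x ∈ W 1 S, η' ≤ |x|) (hW2 : ∀ x ∈ W 2 S, ‖lapC g (pt x + δ)‖ ≤ Q) :
    δ * ∑ t ∈ S, ‖lapC g (pt t + δ)‖ ≤ Real.exp (v0 / 2) +
      B * q δ⁻¹ * (1 + 2 * (Real.log δ⁻¹)⁻¹ + 2 * (Real.log δ⁻¹)⁻¹ ^ 2) +
      δ * (2 ^ (S.card + 1) * ((Real.exp (v0 / 2) + 5 * (B * q δ⁻¹)) / η')) + δ * (2 ^ S.card * Q) +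
      |δ * lap g (1 / 2 + δ)| := by
  set D : ℝ := δ⁻¹ with hDd
  set η : ℝ := (Real.log D)⁻¹ with hη
  set K : ℝ := Real.exp (v0 / 2) with hK
  have hK0 : 0 < K := Real.exp_pos _
  have hq := q_ge hD
  have hL : 1 ≤ Real.log D := log_ge (exp_le.trans hD)
  have hη0 : 0 ≤ η := by positivity
  have hη1 : η ≤ 1 := inv_le_one_of_one_le₀ hL
  have hvd : ∀ v : ℝ, v / D = δ * v := fun v => by rw [hDd, div_inv_eq_mul, mul_comm]
  have hBq : 0 ≤ B * q D := by positivity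
  obtain ⟨Ψ, hΨ⟩ : ∃ Ψ : ℝ → ℝ, Ψ = fun v => ((K + B * q D) * pk 0 v + (2 * B * q D * η * δ) * pk 1 v) +
      (2 * B * q D * η ^ 2 * δ ^ 2) * pk 2 v := ⟨_, rfl⟩
  have hΨv : ∀ v, Ψ v = K + B * (q D * (1 + η * (v / D)) ^ 2) := by
    intro v
    rw [hΨ, hvd]
    simp only [pk, pow_zero, Nat.factorial_zero, Nat.cast_one, div_one, mul_one, pow_one, Nat.factorial_one,
      Nat.factorial_two, Nat.cast_ofNat]
    ring
  have hbound : ∀ v : ℝ, 0 < v → s * f v ≤ Ψ v := by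
    intro v hv
    rw [hΨv]
    have h1 : 0 ≤ B * (q D * (1 + η * (v / D)) ^ 2) := by positivity
    rcases le_total v v0 with h2 | h2
    · have h3 := f_le hs v
      have h4 : Real.exp (v / 2) ≤ K := Real.exp_le_exp.2 (by linarith)
      have h5 := le_max_left (s * f v) 0
      linarith
    · have h3 := h v h2
      have h4 := mul_le_mul_of_nonneg_left (q_key hD (hv0.trans h2)) hB.le
      linarith
  have hi0 := (pk_LInt 0 hδ).const_mul (K + B * q D)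
  have hi1 := (pk_LInt 1 hδ).const_mul (2 * B * q D * η * δ)
  have hi2 := (pk_LInt 2 hδ).const_mul (2 * B * q D * η ^ 2 * δ ^ 2)
  have hΨi : LInt Ψ δ := by
    rw [hΨ]
    exact (hi0.add hi1).add hi2
  have hΨl : lap Ψ δ = (K + B * q D) * (1 / δ ^ (0 + 1)) + (2 * B * q D * η * δ) * (1 / δ ^ (1 + 1)) +
      (2 * B * q D * η ^ 2 * δ ^ 2) * (1 / δ ^ (2 + 1)) := by
    rw [hΨ]
    have e1 := lap_add (hi0.add hi1) hi2
    have e2 := lap_add hi0 hi1
    rw [lap_const_mul, pk_lap 2 hδ] at e1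
    rw [lap_const_mul, lap_const_mul, pk_lap 0 hδ, pk_lap 1 hδ] at e2
    rw [e2] at e1
    exact e1
  -- the complex Laplace transform of the majorant
  have hΨc : ∀ x ∈ W 1 S, ‖lapC Ψ ((δ : ℂ) + x * I)‖ ≤ (K + 5 * (B * q D)) / η' := by
    intro x hx
    have hre : ((δ : ℂ) + x * I).re = δ := by simp
    have him : ((δ : ℂ) + x * I).im = x := by simp
    have hn : η' ≤ ‖(δ : ℂ) + x * I‖ := by
      have := Complex.abs_im_le_norm ((δ : ℂ) + x * I)
      rw [him] at this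
      exact (hW1 x hx).trans this
    have hn0 : 0 < ‖(δ : ℂ) + x * I‖ := lt_of_lt_of_le hη' hn
    rw [hΨ, quad_lapC _ _ _ (by rw [hre]; exact hδ)]
    set z : ℂ := (δ : ℂ) + x * I with hz
    have hδz : δ ≤ ‖z‖ := hδη.trans hn
    have hr : δ / ‖z‖ ≤ 1 := by rw [div_le_one hn0]; exact hδz
    have hr0 : 0 ≤ δ / ‖z‖ := by positivity
    have j0 : ‖((K + B * q D : ℝ) : ℂ) / z‖ ≤ (K + B * q D) / η' := by
      rw [norm_div, Complex.norm_of_nonneg (by positivity)]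
      exact div_le_div_of_nonneg_left (by positivity) hη' hn
    have j1 : ‖((2 * B * q D * η * δ : ℝ) : ℂ) / z ^ 2‖ ≤ 2 * (B * q D) / η' := by
      rw [norm_div, norm_pow, Complex.norm_of_nonneg (by positivity)]
      have e : 2 * B * q D * η * δ / ‖z‖ ^ 2 = 2 * (B * q D) * (η * (δ / ‖z‖)) / ‖z‖ := by
        field_simp
      rw [e]
      refine div_le_div₀ (by positivity) ?_ hη' hn
      have : η * (δ / ‖z‖) ≤ 1 := mul_le_one₀ hη1 hr0 hr
      nlinarith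
    have j2 : ‖((2 * B * q D * η ^ 2 * δ ^ 2 : ℝ) : ℂ) / z ^ 3‖ ≤ 2 * (B * q D) / η' := by
      rw [norm_div, norm_pow, Complex.norm_of_nonneg (by positivity)]
      have e : 2 * B * q D * η ^ 2 * δ ^ 2 / ‖z‖ ^ 3 = 2 * (B * q D) * (η ^ 2 * (δ / ‖z‖) ^ 2) / ‖z‖ := by
        field_simp
      rw [e]
      refine div_le_div₀ (by positivity) ?_ hη' hn
      have : η ^ 2 * (δ / ‖z‖) ^ 2 ≤ 1 := mul_le_one₀ (pow_le_one₀ hη0 hη1) (by positivity) (pow_le_one₀ hr0 hr)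
      nlinarith
    calc _ ≤ ‖((K + B * q D : ℝ) : ℂ) / z‖ + ‖((2 * B * q D * η * δ : ℝ) : ℂ) / z ^ 2‖ +
          ‖((2 * B * q D * η ^ 2 * δ ^ 2 : ℝ) : ℂ) / z ^ 3‖ := norm_add₃_le
      _ ≤ (K + B * q D) / η' + 2 * (B * q D) / η' + 2 * (B * q D) / η' := by linarith
      _ = _ := by ring
  -- comparison
  have hptw : ∀ x : ℝ, (((1 / 2 + δ : ℝ) : ℂ) + x * I) = pt x + δ := by
    intro x
    unfold pt
    push_cast
    ring
  have hsg : ∀ z : ℂ, ‖lapC (fun v => s * g v) z‖ = ‖lapC g z‖ := by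
    intro z
    rw [lapC_const, norm_mul, Complex.norm_real, Real.norm_eq_abs, s_abs hs, one_mul]
  have hcmp := compareS (F := fun v => s * g v) (G := Ψ) (hg.const_mul s) hΨi (fun v hv => by
    have h1 : s * g v * Real.exp (-((1 / 2 + δ) * v)) = s * f v * Real.exp (-(δ * v)) := by
      unfold f g
      rw [mul_assoc, mul_assoc, mul_assoc, ← Real.exp_add]
      congr 3
      ring
    show s * g v * Real.exp (-((1 / 2 + δ) * v)) ≤ Ψ v * Real.exp (-(δ * v))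
    rw [h1]
    exact mul_le_mul_of_nonneg_right (hbound v hv) (Real.exp_pos _).le) S (Q := Q)
    (Q' := (K + 5 * (B * q D)) / η') h0 h12 (fun x hx => by rw [hsg, hptw]; exact hW2 x hx) hΨc hQ0 (by positivity)
  have hsum : ∑ t ∈ S, ‖lapC (fun v => s * g v) (((1 / 2 + δ : ℝ) : ℂ) + t * I)‖ = ∑ t ∈ S, ‖lapC g (pt t + δ)‖ :=
    Finset.sum_congr rfl fun t _ => by rw [hsg, hptw]
  rw [hsum, lap_const_mul, hΨl] at hcmp
  have h3 := mul_le_mul_of_nonneg_left hcmp hδ.le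
  have h5 : -(δ * (s * lap g (1 / 2 + δ))) ≤ |δ * lap g (1 / 2 + δ)| := by
    have e : δ * (s * lap g (1 / 2 + δ)) = s * (δ * lap g (1 / 2 + δ)) := by ring
    rw [e]
    refine (neg_le_abs _).trans (le_of_eq ?_)
    rw [abs_mul, s_abs hs, one_mul]
  have h6 : δ * ((K + B * q D) * (1 / δ ^ (0 + 1)) + (2 * B * q D * η * δ) * (1 / δ ^ (1 + 1)) +
      (2 * B * q D * η ^ 2 * δ ^ 2) * (1 / δ ^ (2 + 1))) = K + B * q D * (1 + 2 * η + 2 * η ^ 2) := by
    field_simp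
    ring
  rw [mul_add, mul_add, mul_add, h6] at h3
  linarith

end Pool.Agent.H158.GM
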