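import Pool.Graph.R_seed8.H382R2.Zeta2
import Pool.Graph.R_seed8.H370R2.Local
import Pool.Graph.R_seed8.H382P.FFhor

set_option autoImplicit false

/-! A lower bound for zeta with a power of the distance to the zeros. -/

namespace Pool.Agent.H158.GM

open Metric Complex

/-- lower bound with the distance to the zeros -/
theorem low_abs {f : ℂ → ℂ} {c : ℂ} {M : ℝ} (hM : 1 ≤ M) (hf : AnalyticOnNhd ℂ f (closedBall c (37 / 20)))
    (hc : 1 / 4 ≤ ‖f c‖) (hb : ∀ z ∈ closedBall c (37 / 20), ‖f z‖ ≤ M) {z : ℂ} (hz : z ∈ closedBall c (3 / 2))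
    {η : ℝ} (hη : 0 < η) (hη1 : η ≤ 1) (hd : ∀ ρ ∈ closedBall c (8 / 5), f ρ = 0 → η ≤ ‖z - ρ‖) :
    Real.exp (-(550 * Real.log (4 * M) * (1 + Real.log (1 / η)))) ≤ ‖f z‖ := by
  have hfc : f c ≠ 0 := by
    intro h
    rw [h, norm_zero] at hc
    linarith
  obtain ⟨s, g, hs, hg, hfg, hg0, hcard⟩ := H370.Loc.extract (r := 8 / 5) (R := 37 / 20) (by norm_num) (by norm_num) hM
    hf hfc hb
  obtain ⟨n, hn⟩ : ∃ n : ℕ, n = s.card := ⟨_, rfl⟩
  rw [← hn] at hcard
  obtain ⟨Λ, hΛ⟩ : ∃ Λ : ℝ, Λ = Real.log (4 * M) := ⟨_, rfl⟩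
  have hfc0 : 0 < ‖f c‖ := by linarith
  have hΛ1 : 1 ≤ Λ := by
    rw [hΛ, Real.le_log_iff_exp_le (by linarith)]
    have := Real.exp_one_lt_d9
    linarith
  have hlogM : Real.log (M / ‖f c‖) ≤ Λ := by
    rw [hΛ]
    refine Real.log_le_log (by positivity) ?_
    rw [div_le_iff₀ hfc0]
    nlinarith
  have hlR : 1 / 8 ≤ Real.log ((37 / 20) / (8 / 5)) := by
    rw [Real.le_log_iff_exp_le (by norm_num)]
    have h1 := Real.exp_bound_div_one_sub_of_interval (x := 1 / 8) (by norm_num) (by norm_num)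
    refine h1.trans ?_
    norm_num
  have hn8 : (n : ℝ) ≤ 8 * Λ := by
    refine hcard.trans ?_
    rw [div_le_iff₀ (by linarith)]
    nlinarith
  have hn0 : (0 : ℝ) ≤ n := Nat.cast_nonneg n
  -- the value of `g` at the centre
  have hcc : c ∈ closedBall c (8 / 5 : ℝ) := mem_closedBall_self (by norm_num)
  have hPc : ‖H370.Loc.Pf s c‖ ≤ (8 / 5) ^ n := by
    rw [hn]
    refine H370.Loc.Pf_norm_le fun ρ hρ => ?_
    have := (hs ρ hρ).1
    rwa [mem_closedBall, dist_comm, dist_eq_norm] at this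
  have hgc : (1 / 4) / (8 / 5) ^ n ≤ ‖g c‖ := by
    rw [div_le_iff₀ (by positivity)]
    have h1 : ‖f c‖ = ‖H370.Loc.Pf s c‖ * ‖g c‖ := by rw [hfg c, norm_mul]
    rw [h1] at hc
    calc (1 / 4 : ℝ) ≤ ‖H370.Loc.Pf s c‖ * ‖g c‖ := hc
      _ ≤ (8 / 5) ^ n * ‖g c‖ := mul_le_mul_of_nonneg_right hPc (norm_nonneg _)
      _ = _ := mul_comm _ _
  have hgc0 : 0 < ‖g c‖ := lt_of_lt_of_le (by positivity) hgc
  -- the bound of `g` on the large ball
  have hgb : ∀ w ∈ closedBall c (37 / 20 : ℝ), ‖g w‖ ≤ M / (1 / 4) ^ n := by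
    intro w hw
    have hball : closure (ball c (37 / 20 : ℝ)) = closedBall c (37 / 20) := closure_ball c (by norm_num)
    refine Complex.norm_le_of_forall_mem_frontier_norm_le (U := ball c (37 / 20 : ℝ)) isBounded_ball ?_ ?_ ?_
    · refine DifferentiableOn.diffContOnCl ?_
      rw [hball]
      exact hg.differentiableOn
    · intro z' hz'
      rw [frontier_ball c (by norm_num : (37 / 20 : ℝ) ≠ 0), mem_sphere, dist_eq_norm] at hz'
      have h1 : (1 / 4 : ℝ) ^ n ≤ ‖H370.Loc.Pf s z'‖ := by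
        rw [hn]
        refine H370.Loc.Pf_norm_ge (by norm_num) fun ρ hρ => ?_
        have h2 := (hs ρ hρ).1
        rw [mem_closedBall, dist_eq_norm] at h2
        have h3 : ‖z' - c‖ ≤ ‖z' - ρ‖ + ‖ρ - c‖ := by
          have := norm_add_le (z' - ρ) (ρ - c)
          rwa [sub_add_sub_cancel] at this
        linarith
      have h2 := hb z' (by rw [mem_closedBall, dist_eq_norm]; linarith)
      rw [hfg z', norm_mul] at h2
      rw [le_div_iff₀ (by positivity)]
      calc ‖g z'‖ * (1 / 4) ^ n ≤ ‖g z'‖ * ‖H370.Loc.Pf s z'‖ := mul_le_mul_of_nonneg_left h1 (norm_nonneg _)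
        _ = ‖H370.Loc.Pf s z'‖ * ‖g z'‖ := mul_comm _ _
        _ ≤ M := h2
    · rw [hball]
      exact hw
  -- the zero-free part
  obtain ⟨B, hB⟩ : ∃ B : ℝ, B = 17 * Λ := ⟨_, rfl⟩
  have hratio : ∀ w ∈ ball c (8 / 5 : ℝ), ‖g w‖ ≤ Real.exp B * ‖g c‖ := by
    intro w hw
    have h1 := hgb w (ball_subset_closedBall.trans (closedBall_subset_closedBall (by norm_num)) hw)
    refine h1.trans ?_
    have h2 : M / (1 / 4) ^ n ≤ Real.exp B * ((1 / 4) / (8 / 5) ^ n) := by
      have e1 : Real.exp B * ((1 / 4) / (8 / 5) ^ n) = (Real.exp B / 4) / (8 / 5) ^ n := by ring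
      rw [e1, div_le_div_iff₀ (by positivity) (by positivity)]
      have h3 : (8 / 5 : ℝ) ^ n = (32 / 5) ^ n * (1 / 4) ^ n := by
        rw [← mul_pow]; norm_num
      rw [h3, ← mul_assoc]
      refine mul_le_mul_of_nonneg_right ?_ (by positivity)
      have h4 : (32 / 5 : ℝ) ≤ Real.exp 2 := by
        have := Real.exp_one_gt_d9
        have h5 : Real.exp 2 = Real.exp 1 * Real.exp 1 := by rw [← Real.exp_add]; norm_num
        rw [h5]; nlinarith
      have h6 : (32 / 5 : ℝ) ^ n ≤ Real.exp (2 * n) := by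
        rw [mul_comm, Real.exp_nat_mul]
        exact pow_le_pow_left₀ (by norm_num) h4 n
      have h7 : 4 * M = Real.exp Λ := by rw [hΛ, Real.exp_log (by linarith)]
      have h8 : 4 * M * (32 / 5) ^ n ≤ Real.exp B := by
        calc 4 * M * (32 / 5) ^ n ≤ Real.exp Λ * Real.exp (2 * n) := by
              rw [h7]; exact mul_le_mul_of_nonneg_left h6 (Real.exp_pos _).le
          _ = Real.exp (Λ + 2 * n) := by rw [Real.exp_add]
          _ ≤ Real.exp B := Real.exp_le_exp.2 (by rw [hB]; linarith)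
      linarith
    exact h2.trans (mul_le_mul_of_nonneg_left hgc (Real.exp_pos _).le)
  have hlow := SP.lower_zero_free (g := g) (c := c) (r := 8 / 5) (r2 := 3 / 2) (B := B) (by norm_num) (by norm_num)
    (by norm_num) (by rw [hB]; linarith)
    (hg.mono (ball_subset_closedBall.trans (closedBall_subset_closedBall (by norm_num))))
    (fun w hw => hg0 w (ball_subset_closedBall hw)) hratio hz
  have hPz : η ^ n ≤ ‖H370.Loc.Pf s z‖ := by
    rw [hn]
    exact H370.Loc.Pf_norm_ge hη.le fun ρ hρ => hd ρ (hs ρ hρ).1 (hs ρ hρ).2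
  have hfin : η ^ n * ((1 / 4) / (8 / 5) ^ n * Real.exp (-(2 * B * (3 / 2) / (8 / 5 - 3 / 2)))) ≤ ‖f z‖ := by
    rw [hfg z, norm_mul]
    refine mul_le_mul hPz ?_ (by positivity) (norm_nonneg _)
    exact (mul_le_mul_of_nonneg_right hgc (Real.exp_pos _).le).trans hlow
  refine le_trans ?_ hfin
  have hLη : 0 ≤ Real.log (1 / η) := Real.log_nonneg (by rw [le_div_iff₀ hη]; linarith)
  have e1 : η ^ n = Real.exp (-(n * Real.log (1 / η))) := by
    rw [one_div, Real.log_inv, mul_neg, neg_neg, Real.exp_nat_mul, Real.exp_log hη]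
  have e2 : Real.exp (-(2 + n)) ≤ (1 / 4 : ℝ) / (8 / 5) ^ n := by
    rw [neg_add, Real.exp_add, div_eq_mul_inv]
    refine mul_le_mul ?_ ?_ (Real.exp_pos _).le (by norm_num)
    · rw [Real.exp_neg, one_div]
      refine inv_anti₀ (by norm_num) ?_
      have := Real.exp_one_gt_d9
      have h5 : Real.exp 2 = Real.exp 1 * Real.exp 1 := by rw [← Real.exp_add]; norm_num
      rw [h5]; nlinarith
    · rw [Real.exp_neg]
      refine inv_anti₀ (by positivity) ?_
      have h6 : (8 / 5 : ℝ) ≤ Real.exp 1 := by have := Real.exp_one_gt_d9; linarith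
      calc (8 / 5 : ℝ) ^ n ≤ Real.exp 1 ^ n := pow_le_pow_left₀ (by norm_num) h6 n
        _ = Real.exp n := by rw [← Real.exp_nat_mul, mul_one]
  have e3 : 2 * B * (3 / 2) / (8 / 5 - 3 / 2) = 30 * B := by ring
  rw [e3, e1]
  refine le_trans ?_ (mul_le_mul_of_nonneg_left (mul_le_mul_of_nonneg_right e2 (Real.exp_pos _).le) (Real.exp_pos _).le)
  rw [← Real.exp_add, ← Real.exp_add, ← hΛ]
  refine Real.exp_le_exp.2 ?_
  have h9 : (n : ℝ) * Real.log (1 / η) ≤ 8 * Λ * Real.log (1 / η) := mul_le_mul_of_nonneg_right hn8 hLη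
  have h10 : 0 ≤ Λ * Real.log (1 / η) := mul_nonneg (by linarith) hLη
  rw [hB]
  nlinarith

/-- the lower bound for zeta with a power of the distance to the zeros -/
theorem zlow (σ t η : ℝ) (h1 : 1 / 2 ≤ σ) (h2 : σ ≤ 2) (hη : 0 < η) (hη1 : η ≤ 1)
    (hd : ∀ ρ : ℂ, riemannZeta₁ ρ = 0 → 0 < ρ.re → η ≤ ‖(σ : ℂ) + t * I - ρ‖) :
    Real.exp (-(3300 * Real.log (|t| + 5) * (1 + Real.log (1 / η)))) ≤ ‖riemannZeta₁ ((σ : ℂ) + t * I)‖ := by
  obtain ⟨c, hc⟩ : ∃ c : ℂ, c = 2 + t * I := ⟨_, rfl⟩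
  have hcr : c.re = 2 := by rw [hc]; simp
  have hcn : ‖c‖ ≤ 2 + |t| := by
    rw [hc]
    refine (norm_add_le _ _).trans ?_
    rw [norm_mul, Complex.norm_I, mul_one, Complex.norm_real, Real.norm_eq_abs]
    simp
  have ht := abs_nonneg t
  have hre : ∀ z ∈ closedBall c (37 / 20 : ℝ), 3 / 20 ≤ z.re := by
    intro z hz
    rw [mem_closedBall, dist_eq_norm] at hz
    have h3 := (Complex.abs_re_le_norm (z - c)).trans hz
    rw [Complex.sub_re, hcr, abs_le] at h3
    linarith [h3.1]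
  have hM : (1 : ℝ) ≤ 11 * (|t| + 5) ^ 2 := by nlinarith
  have hb : ∀ z ∈ closedBall c (37 / 20 : ℝ), ‖riemannZeta₁ z‖ ≤ 11 * (|t| + 5) ^ 2 := by
    intro z hz
    refine (SG.z1_growth (by linarith [hre z hz])).trans ?_
    rw [mem_closedBall, dist_eq_norm] at hz
    have h3 : ‖z‖ ≤ ‖z - c‖ + ‖c‖ := by
      have := norm_add_le (z - c) c
      rwa [sub_add_cancel] at this
    have h4 : ‖z‖ + 1 ≤ |t| + 5 := by linarith
    have h5 := norm_nonneg z
    nlinarith
  have hz : (σ : ℂ) + t * I ∈ closedBall c (3 / 2 : ℝ) := by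
    rw [mem_closedBall, dist_eq_norm]
    have e : (σ : ℂ) + t * I - c = ((σ - 2 : ℝ) : ℂ) := by rw [hc]; push_cast; ring
    rw [e, Complex.norm_real, Real.norm_eq_abs, abs_le]
    constructor <;> linarith
  have hlow := low_abs (f := riemannZeta₁) (c := c) hM
    (fun z hz => by
      have : Differentiable ℂ riemannZeta₁ := by fun_prop
      exact this.analyticAt z)
    (by rw [hc]; exact Pool.Agent.H437R2.z1_lower t) hb hz hη hη1
    (fun ρ hρ hρ0 => hd ρ hρ0 (by
      have := hre ρ (closedBall_subset_closedBall (by norm_num) hρ)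
      linarith))
  refine le_trans (Real.exp_le_exp.2 ?_) hlow
  have hLη : 0 ≤ Real.log (1 / η) := Real.log_nonneg (by rw [le_div_iff₀ hη]; linarith)
  have h5 : 1 ≤ Real.log (|t| + 5) := by
    rw [Real.le_log_iff_exp_le (by linarith)]
    have := Real.exp_one_lt_d9
    linarith
  have h6 : Real.log (4 * (11 * (|t| + 5) ^ 2)) ≤ 6 * Real.log (|t| + 5) := by
    have e : (4 * (11 * (|t| + 5) ^ 2) : ℝ) = 44 * (|t| + 5) ^ 2 := by ring
    rw [e, Real.log_mul (by norm_num) (by positivity), Real.log_pow]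
    have h7 : Real.log 44 ≤ 4 := by
      rw [Real.log_le_iff_le_exp (by norm_num)]
      have := Real.exp_one_gt_d9
      have h8 : Real.exp 4 = (Real.exp 1) ^ 4 := by rw [← Real.exp_nat_mul]; norm_num
      rw [h8]
      have h9 : (2.7 : ℝ) ^ 4 ≤ Real.exp 1 ^ 4 := pow_le_pow_left₀ (by norm_num) (by linarith) 4
      refine le_trans ?_ h9
      norm_num
    push_cast
    linarith
  have h8 : 550 * Real.log (4 * (11 * (|t| + 5) ^ 2)) * (1 + Real.log (1 / η)) ≤
      550 * (6 * Real.log (|t| + 5)) * (1 + Real.log (1 / η)) := by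
    refine mul_le_mul_of_nonneg_right ?_ (by linarith)
    linarith
  linarith

end Pool.Agent.H158.GM
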