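import Pool.Agent.H158.GM.Kern
import Pool.Agent.H158.GM.Zlow

set_option autoImplicit false

/-! Close relations between the ordinates. -/

namespace Pool.Agent.H158.GM

open Filter Topology Complex Finset
open Pool.Agent.Y853.HM

/-- the signed sum `∑_{t ∈ S} ε_t t` of at least two distinct ordinates `≤ T` is extremely close to `γ₀`, which is zero or an ordinate -/
def CloseAt (A T : ℝ) (S : Finset ℝ) (ε : ℝ → ℤ) (γ₀ : ℝ) : Prop :=
  2 ≤ S.card ∧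
    (∀ t ∈ S, 0 < t ∧ t ≤ T ∧ riemannZeta (1 / 2 + t * I) = 0 ∧ (ε t = 1 ∨ ε t = -1)) ∧
    (γ₀ = 0 ∨ 0 < γ₀ ∧ riemannZeta (1 / 2 + γ₀ * I) = 0) ∧
    |∑ t ∈ S, (ε t : ℝ) * t - γ₀| ≤ Real.exp (-(T ^ A))

/-- the ordinate `γ` occurs in a close relation -/
def Related (A T γ : ℝ) : Prop := ∃ (S : Finset ℝ) (ε : ℝ → ℤ) (γ₀ : ℝ), γ ∈ S ∧ CloseAt A T S ε γ₀

/-- there are no close relations with the elements of `S₀` -/
def Free (A T : ℝ) (S₀ : Finset ℝ) : Prop := ∀ S : Finset ℝ, S ⊆ S₀ → ∀ (ε : ℝ → ℤ) (γ₀ : ℝ), ¬ CloseAt A T S ε γ₀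

theorem W_abs {m : ℕ} {S : Finset ℝ} {U x : ℝ} (hS : ∀ t ∈ S, 0 < t ∧ t ≤ U) (hx : x ∈ W m S) : |x| ≤ S.card * U := by
  obtain ⟨p, hp, -, rfl⟩ := hx
  refine (Finset.abs_sum_le_sum_abs _ _).trans ?_
  rw [← nsmul_eq_mul]
  refine Finset.sum_le_card_nsmul _ _ _ fun t ht => ?_
  rw [abs_mul, abs_of_pos (hS t ht).1]
  have h1 : |(p t : ℝ)| ≤ 1 := by
    have := hp t ht
    rw [← Int.cast_abs]
    exact_mod_cast this
  calc |(p t : ℝ)| * t ≤ 1 * t := mul_le_mul_of_nonneg_right h1 (hS t ht).1.le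
    _ ≤ U := by linarith [(hS t ht).2]

theorem mem_W_one {S : Finset ℝ} {t : ℝ} (ht : t ∈ S) : t ∈ W 1 S := by
  classical
  refine ⟨fun r => if r = t then 1 else 0, fun r _ => ?_, ?_, ?_⟩
  · by_cases h : r = t <;> simp [h]
  · rw [Nat.one_le_iff_ne_zero, Ne, Finset.card_eq_zero]
    intro h
    have : t ∈ S.filter (fun r => (if r = t then (1 : ℤ) else 0) ≠ 0) := by
      rw [Finset.mem_filter]
      exact ⟨ht, by simp⟩
    rw [h] at this
    exact absurd this (Finset.notMem_empty _)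
  · rw [Finset.sum_eq_single t]
    · simp
    · intro r _ hr
      simp [hr]
    · intro h
      exact absurd ht h

theorem W_mono {S : Finset ℝ} {x : ℝ} (hx : x ∈ W 2 S) : x ∈ W 1 S := by
  obtain ⟨p, hp, h, e⟩ := hx
  exact ⟨p, hp, by omega, e⟩

theorem sum_supp (S : Finset ℝ) (p : ℝ → ℤ) :
    ∑ t ∈ S.filter (fun t => p t ≠ 0), (p t : ℝ) * t = ∑ t ∈ S, (p t : ℝ) * t := by
  rw [Finset.sum_filter]
  refine Finset.sum_congr rfl fun t _ => ?_
  by_cases h : p t = 0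
  · simp [h]
  · simp [h]

theorem sign_of {n : ℤ} (h : |n| ≤ 1) (h0 : n ≠ 0) : n = 1 ∨ n = -1 := by
  rw [abs_le] at h
  omega

/-- the sums with two nonzero terms are far from the ordinates and from zero -/
theorem far1 {A T : ℝ} {S : Finset ℝ} (hC : Free A T S) (hS : ∀ t ∈ S, 0 < t ∧ t ≤ T ∧ riemannZeta (1 / 2 + t * I) = 0)
    {x : ℝ} (hx : x ∈ W 2 S) {γ₀ : ℝ} (h0 : γ₀ = 0 ∨ 0 < γ₀ ∧ riemannZeta (1 / 2 + γ₀ * I) = 0) (σ : ℤ)
    (hσ : σ = 1 ∨ σ = -1) : Real.exp (-(T ^ A)) ≤ |x - σ * γ₀| := by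
  classical
  by_contra hcon
  push Not at hcon
  obtain ⟨p, hp, h2, rfl⟩ := hx
  refine hC (S.filter (fun t => p t ≠ 0)) (Finset.filter_subset _ _) (fun t => σ * p t) γ₀ ⟨h2, ?_, h0, ?_⟩
  · intro t ht
    rw [Finset.mem_filter] at ht
    obtain ⟨a, b, c⟩ := hS t ht.1
    refine ⟨a, b, c, ?_⟩
    rcases hσ with rfl | rfl <;> rcases sign_of (hp t ht.1) ht.2 with h | h <;> simp [h]
  · have e : ∑ t ∈ S.filter (fun t => p t ≠ 0), ((σ * p t : ℤ) : ℝ) * t - γ₀ =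
        σ * (∑ t ∈ S, (p t : ℝ) * t - σ * γ₀) := by
      rw [← sum_supp S p, mul_sub, Finset.mul_sum]
      congr 1
      · refine Finset.sum_congr rfl fun t _ => ?_
        push_cast
        ring
      · rcases hσ with rfl | rfl <;> simp
    have e2 : |((σ : ℤ) : ℝ)| = 1 := by rcases hσ with rfl | rfl <;> simp
    show |∑ t ∈ S.filter (fun t => p t ≠ 0), ((σ * p t : ℤ) : ℝ) * t - γ₀| ≤ _
    rw [e, abs_mul, e2, one_mul]
    exact hcon.le

/-- the sums are far from zero -/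
theorem far0 {A T : ℝ} {S : Finset ℝ} (hC : Free A T S)
    (hS : ∀ t ∈ S, 0 < t ∧ t ≤ T ∧ riemannZeta (1 / 2 + t * I) = 0) (hS1 : ∀ t ∈ S, Real.exp (-(T ^ A)) ≤ t)
    {x : ℝ} (hx : x ∈ W 1 S) : Real.exp (-(T ^ A)) ≤ |x| := by
  classical
  obtain ⟨p, hp, h1, rfl⟩ := hx
  by_cases h2 : 2 ≤ (S.filter (fun t => p t ≠ 0)).card
  · have h3 := far1 hC hS (x := ∑ t ∈ S, (p t : ℝ) * t) ⟨p, hp, h2, rfl⟩ (γ₀ := 0) (Or.inl rfl) 1 (Or.inl rfl)
    simpa using h3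
  · obtain ⟨t, ht⟩ := Finset.card_eq_one.1 (by omega : (S.filter (fun t => p t ≠ 0)).card = 1)
    have hmem : t ∈ S.filter (fun t => p t ≠ 0) := by rw [ht]; exact Finset.mem_singleton_self t
    rw [Finset.mem_filter] at hmem
    rw [← sum_supp S p, ht, Finset.sum_singleton, abs_mul]
    have e : |(p t : ℝ)| = 1 := by
      rcases sign_of (hp t hmem.1) hmem.2 with h | h <;> simp [h]
    rw [e, one_mul, abs_of_pos (hS t hmem.1).1]
    exact hS1 t hmem.1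

/-- the zeros `1/2 + iγ` and `1/2 - iγ` -/
theorem zero_neg {γ : ℝ} (h : riemannZeta (1 / 2 + γ * I) = 0) : riemannZeta (1 / 2 + (-γ : ℝ) * I) = 0 := by
  have h1 := riemannZeta_one_sub (s := 1 / 2 + γ * I) (fun n hn => by
    have := congrArg Complex.re hn
    simp at this
    have h2 : (0 : ℝ) ≤ n := Nat.cast_nonneg n
    linarith) (fun hn => by
    have := congrArg Complex.re hn
    simp at this)
  rw [h, mul_zero] at h1
  have e : (1 : ℂ) - (1 / 2 + γ * I) = 1 / 2 + (-γ : ℝ) * I := by push_cast; ring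
  rwa [e] at h1

end Pool.Agent.H158.GM
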