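import Pool.Agent.H198.GM.Fin
import Pool.Agent.H158.GM.Rel
import Pool.Agent.H158.GM.Ampl
import Pool.Graph.R_pool_sql_team_seeded_3997aac3.Q97.UM.Jm

set_option autoImplicit false

/-! The Laplace transform of `M` at the zeros and away from them. -/

namespace Pool.Agent.H158.GM

open Filter Topology Set MeasureTheory Complex
open Pool.Agent.W263.BSD Pool.Agent.W120.WM Pool.Agent.Y853.HM Pool.Agent.H198.GM

/-- away from the zeros the Laplace transform is not too large -/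
theorem lap_up (hg : ∀ w > (1 / 2 : ℝ), LInt g w) {A T : ℝ} (hT : 1 ≤ T) {S : Finset ℝ} (hC : Free A T S)
    (hS : ∀ t ∈ S, 0 < t ∧ t ≤ T ∧ riemannZeta (1 / 2 + t * I) = 0) {x δ R : ℝ} (hx : x ∈ W 2 S) (hxR : |x| ≤ R)
    (hδ : 0 < δ) (hδ1 : δ ≤ 1) :
    ‖lapC g (pt x + δ)‖ ≤ 3 * Real.exp (3300 * Real.log (R + 5) * (1 + T ^ A)) := by
  have hTA : 0 ≤ T ^ A := Real.rpow_nonneg (by linarith) A
  have hη1 : Real.exp (-(T ^ A)) ≤ 1 := Real.exp_le_one_iff.2 (by linarith)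
  have hs : pt x + (δ : ℂ) = ((1 / 2 + δ : ℝ) : ℂ) + x * I := by
    unfold pt; push_cast; ring
  have hlow := zlow (1 / 2 + δ) x (Real.exp (-(T ^ A))) (by linarith) (by linarith) (Real.exp_pos _) hη1 (by
    intro ρ hρ hρ0
    have hρ1 : ρ ≠ 1 := by
      rintro rfl
      rw [riemannZeta₁_one] at hρ
      exact one_ne_zero hρ
    have hz : riemannZeta ρ = 0 := by
      have h1 := Pool.Agent.H437R2.z1_of_ne hρ1
      rw [hρ] at h1
      rcases mul_eq_zero.1 h1.symm with h2 | h2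
      · exact absurd (sub_eq_zero.1 h2) hρ1
      · exact h2
    have hre1 : ρ.re < 1 := by
      by_contra hcon
      push Not at hcon
      exact riemannZeta_ne_zero_of_one_le_re hcon hz
    have hre := Pool.Agent.Y853.HM.rh hg hz hρ0 hre1
    have hρe : ρ = 1 / 2 + (ρ.im : ℝ) * I := by
      apply Complex.ext
      · simp [hre]
      · simp
    have him : |x - ρ.im| ≤ ‖((1 / 2 + δ : ℝ) : ℂ) + x * I - ρ‖ := by
      have := Complex.abs_im_le_norm (((1 / 2 + δ : ℝ) : ℂ) + x * I - ρ)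
      simpa using this
    refine le_trans ?_ him
    rw [hρe] at hz
    rcases lt_trichotomy ρ.im 0 with h | h | h
    · have h3 := far1 hC hS hx (γ₀ := -ρ.im) (Or.inr ⟨by linarith, zero_neg hz⟩) (-1) (Or.inr rfl)
      have e : x - ((-1 : ℤ) : ℝ) * (-ρ.im) = x - ρ.im := by push_cast; ring
      rwa [e] at h3
    · have h3 := far1 hC hS hx (γ₀ := 0) (Or.inl rfl) 1 (Or.inl rfl)
      rw [mul_zero] at h3
      rw [h]
      exact h3
    · have h3 := far1 hC hS hx (γ₀ := ρ.im) (Or.inr ⟨h, hz⟩) 1 (Or.inl rfl)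
      have e : x - ((1 : ℤ) : ℝ) * ρ.im = x - ρ.im := by push_cast; ring
      rwa [e] at h3)
  rw [← hs] at hlow
  have hlog : Real.log (1 / Real.exp (-(T ^ A))) = T ^ A := by
    rw [Real.exp_neg, one_div, inv_inv, Real.log_exp]
  rw [hlog] at hlow
  have hlx : Real.log (|x| + 5) ≤ Real.log (R + 5) := Real.log_le_log (by positivity) (by linarith)
  have hlow2 : Real.exp (-(3300 * Real.log (R + 5) * (1 + T ^ A))) ≤ ‖riemannZeta₁ (pt x + δ)‖ := by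
    refine le_trans (Real.exp_le_exp.2 ?_) hlow
    have : 3300 * Real.log (|x| + 5) * (1 + T ^ A) ≤ 3300 * Real.log (R + 5) * (1 + T ^ A) :=
      mul_le_mul_of_nonneg_right (by linarith) (by linarith)
    linarith
  have hx' := congrArg norm (ext_pt hg x hδ)
  rw [norm_mul, norm_mul] at hx'
  have hre : 1 / 2 ≤ ‖pt x + (δ : ℂ)‖ := by
    have := Complex.abs_re_le_norm (pt x + (δ : ℂ))
    rw [Complex.add_re, pt_re, Complex.ofReal_re, abs_of_pos (by linarith)] at this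
    linarith
  have hm1 : ‖pt x + (δ : ℂ) - 1‖ ≤ 3 * ‖pt x + (δ : ℂ)‖ := by
    have := norm_sub_le (pt x + (δ : ℂ)) 1
    rw [norm_one] at this
    linarith
  have hs0 : 0 < ‖pt x + (δ : ℂ)‖ := by linarith
  have h5 : ‖riemannZeta₁ (pt x + δ)‖ * ‖lapC g (pt x + δ)‖ ≤ 3 := by
    have h6 : ‖pt x + (δ : ℂ)‖ * (‖riemannZeta₁ (pt x + δ)‖ * ‖lapC g (pt x + δ)‖) ≤ ‖pt x + (δ : ℂ)‖ * 3 := by
      rw [← mul_assoc, hx']; linarith
    exact le_of_mul_le_mul_left h6 hs0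
  have h7 : Real.exp (-(3300 * Real.log (R + 5) * (1 + T ^ A))) * ‖lapC g (pt x + δ)‖ ≤ 3 :=
    (mul_le_mul_of_nonneg_right hlow2 (norm_nonneg _)).trans h5
  rw [Real.exp_neg, inv_mul_le_iff₀ (Real.exp_pos _)] at h7
  linarith

/-- at the zeros the Laplace transform is large -/
theorem lap_low (hg : ∀ w > (1 / 2 : ℝ), LInt g w) {t δ U : ℝ} (ht : 16 ≤ t) (htU : t ≤ U) (hδ : 0 < δ) (hδ1 : δ ≤ 1 / 20)
    (hz : riemannZeta (1 / 2 + t * I) = 0) (hD : 0 < ‖deriv riemannZeta (1 / 2 + t * I)‖) :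
    1 / 4 * (1 / (t * (‖deriv riemannZeta (1 / 2 + t * I)‖ + 1100 * U * δ))) ≤ δ * ‖lapC g (pt t + δ)‖ := by
  have hpt : (1 / 2 + t * I : ℂ) = pt t := rfl
  rw [hpt] at hz hD ⊢
  have hT := taylor t hδ.le hδ1 hz
  obtain ⟨n1, n2⟩ := pt_norm t
  rw [abs_of_pos (by linarith)] at n1 n2
  obtain ⟨D, hDd⟩ : ∃ D : ℝ, D = ‖deriv riemannZeta (pt t)‖ := ⟨_, rfl⟩
  rw [← hDd] at hD hT ⊢
  have hx := congrArg norm (ext_pt hg t hδ)
  rw [norm_mul, norm_mul] at hx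
  have him : t ≤ ‖pt t + (δ : ℂ) - 1‖ := by
    have := Complex.abs_im_le_norm (pt t + (δ : ℂ) - 1)
    have e : (pt t + (δ : ℂ) - 1).im = t := by simp [pt]
    rw [e, abs_of_pos (by linarith)] at this
    exact this
  have hsz : ‖pt t + (δ : ℂ)‖ ≤ 2 * ‖pt t + (δ : ℂ) - 1‖ := by
    have h5 : ‖pt t + (δ : ℂ)‖ ≤ ‖pt t + (δ : ℂ) - 1‖ + 1 := by
      calc ‖pt t + (δ : ℂ)‖ = ‖(pt t + (δ : ℂ) - 1) + 1‖ := by ring_nf
        _ ≤ _ := by
          refine (norm_add_le _ _).trans ?_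
          rw [norm_one]
    linarith
  have hN0 : 0 < ‖pt t + (δ : ℂ) - 1‖ := by linarith
  have hz1 : ‖riemannZeta₁ (pt t + δ)‖ ≤ 2 * t * δ * (D + 1100 * U * δ) := by
    refine hT.trans ?_
    have h1 : δ * (‖pt t‖ * D) ≤ δ * (2 * t * D) :=
      mul_le_mul_of_nonneg_left (mul_le_mul_of_nonneg_right (by linarith) hD.le) hδ.le
    have h2 : (‖pt t‖ + 2) ^ 2 ≤ 2 * t ^ 2 := by
      have h3 : ‖pt t‖ + 2 ≤ t + 3 := by linarith
      have h4 : (‖pt t‖ + 2) ^ 2 ≤ (t + 3) ^ 2 := pow_le_pow_left₀ (by positivity) h3 2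
      nlinarith
    have h5 : 1100 * (‖pt t‖ + 2) ^ 2 * δ ^ 2 ≤ 1100 * (2 * t ^ 2) * δ ^ 2 := by gcongr
    have h6 : 1100 * (2 * t ^ 2) * δ ^ 2 ≤ 2 * t * δ * (1100 * U * δ) := by
      have : t ^ 2 ≤ t * U := by nlinarith
      calc 1100 * (2 * t ^ 2) * δ ^ 2 ≤ 1100 * (2 * (t * U)) * δ ^ 2 := by gcongr
        _ = _ := by ring
    calc _ ≤ δ * (2 * t * D) + 2 * t * δ * (1100 * U * δ) := by linarith
      _ = _ := by ring
  have hU0 : 0 < U := by linarith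
  have hy : 0 < D + 1100 * U * δ := by positivity
  have hmain : ‖pt t + (δ : ℂ) - 1‖ * 1 ≤ ‖pt t + (δ : ℂ) - 1‖ * (4 * (t * (D + 1100 * U * δ)) *
      (δ * ‖lapC g (pt t + δ)‖)) := by
    rw [mul_one]
    calc ‖pt t + (δ : ℂ) - 1‖ = ‖pt t + (δ : ℂ)‖ * ‖riemannZeta₁ (pt t + δ)‖ * ‖lapC g (pt t + δ)‖ := hx.symm
      _ ≤ (2 * ‖pt t + (δ : ℂ) - 1‖) * (2 * t * δ * (D + 1100 * U * δ)) * ‖lapC g (pt t + δ)‖ := by gcongr
      _ = _ := by ring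
  have h1 := le_of_mul_le_mul_left hmain hN0
  have ht0 : 0 < t := by linarith
  rw [one_div_mul_one_div, div_le_iff₀ (by positivity)]
  linarith

/-- the amplitudes of the zeros -/
theorem ampl : ∃ c : ℝ, 0 < c ∧ ∀ᶠ U : ℝ in atTop, ∃ S : Finset ℝ,
    (∀ t ∈ S, 16 ≤ t ∧ t ≤ U ∧ riemannZeta (1 / 2 + t * I) = 0 ∧ 0 < ‖deriv riemannZeta (1 / 2 + t * I)‖) ∧
    (S.card : ℝ) ≤ U ^ 3 ∧ ∀ y : ℝ, 0 < y → y ≤ 1 / U ^ 2 →
      c * Real.log U ^ (5 / 4 : ℝ) ≤ ∑ t ∈ S, 1 / (t * (‖deriv riemannZeta (1 / 2 + t * I)‖ + y)) := by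
  classical
  obtain ⟨d, hd, hd1, hJ⟩ := Pool.Agent.Q97.UM.J_low
  obtain ⟨c, hc, hJ⟩ := hJ 1 le_rfl
  obtain ⟨Z, hZ⟩ : ∃ Z : ℝ → Finset ℝ, Z = fun T => (Pool.Agent.Q97.UM.ZI d T).image Complex.im := ⟨_, rfl⟩
  have hmem : ∀ T : ℝ, 16 ≤ T → ∀ s ∈ Pool.Agent.Q97.UM.ZI d T, s = 1 / 2 + (s.im : ℝ) * I ∧ T < s.im ∧ s.im ≤ 2 * T ∧
      riemannZeta (1 / 2 + (s.im : ℝ) * I) = 0 ∧ deriv riemannZeta (1 / 2 + (s.im : ℝ) * I) ≠ 0 := by
    intro T hT s hs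
    obtain ⟨h1, h2, h3, h4, h5, -⟩ := (Pool.Agent.Q97.UM.mem_ZI_iff (d := d) (T := T) hT hd1).1 hs
    have e : s = 1 / 2 + (s.im : ℝ) * I := by
      apply Complex.ext
      · simp [h1]
      · simp
    refine ⟨e, h2, h3, ?_, ?_⟩
    · rw [← e]; exact h4
    · rw [← e]; exact h5
  have hZm : ∀ T : ℝ, 16 ≤ T → ∀ t ∈ Z T, T < t ∧ t ≤ 2 * T ∧ riemannZeta (1 / 2 + t * I) = 0 ∧
      0 < ‖deriv riemannZeta (1 / 2 + t * I)‖ := by
    intro T hT t ht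
    rw [hZ, Finset.mem_image] at ht
    obtain ⟨s, hs, rfl⟩ := ht
    obtain ⟨-, h2, h3, h4, h5⟩ := hmem T hT s hs
    exact ⟨h2, h3, h4, norm_pos_iff.2 h5⟩
  have H : ∀ᶠ T : ℝ in atTop, (∀ t ∈ Z T, T < t ∧ t ≤ 2 * T ∧ 0 < ‖deriv riemannZeta (1 / 2 + t * I)‖) ∧
      c * T * Real.log T ^ (1 / 4 : ℝ) ≤ ∑ t ∈ Z T, ‖deriv riemannZeta (1 / 2 + t * I)‖⁻¹ := by
    filter_upwards [hJ, eventually_ge_atTop (16 : ℝ)] with T h1 h2
    refine ⟨fun t ht => ⟨(hZm T h2 t ht).1, (hZm T h2 t ht).2.1, (hZm T h2 t ht).2.2.2⟩, ?_⟩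
    have h3 := h1 (-1 / 2) (by rw [abs_le]; constructor <;> norm_num)
    have e2 : ((-1 / 2 : ℝ) + 1) ^ 2 = 1 / 4 := by norm_num
    rw [e2] at h3
    refine h3.trans (le_of_eq ?_)
    rw [hZ, Finset.sum_image]
    · refine Finset.sum_congr rfl fun s hs => ?_
      have e := (hmem T h2 s hs).1
      rw [← e]
      have : (2 * (-1 / 2 : ℝ)) = -1 := by norm_num
      rw [this, Real.rpow_neg_one]
    · intro a ha b hb hab
      rw [(hmem T h2 a ha).1, (hmem T h2 b hb).1, hab]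
  have Hc : ∀ᶠ T : ℝ in atTop, ((Z T).card : ℝ) ≤ T ^ 2 := by
    filter_upwards [Pool.Agent.Q97.UM.ZI_card_le, eventually_ge_atTop (1 : ℝ)] with T h1 h2
    have h3 : ((Z T).card : ℝ) ≤ ((Pool.Agent.Q97.UM.ZI d T).card : ℝ) := by
      rw [hZ]
      exact_mod_cast Finset.card_image_le
    refine h3.trans ((h1 d).trans ?_)
    have h4 := Real.log_le_sub_one_of_pos (show 0 < T by linarith)
    have h5 := Real.pi_gt_three
    have h6 : 2 * (Real.log T / (2 * Real.pi) * T) = Real.log T * T / Real.pi := by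
      field_simp
    rw [h6, div_le_iff₀ (by linarith)]
    have h7 : Real.log T * T ≤ T * T := mul_le_mul_of_nonneg_right (by linarith) (by linarith)
    nlinarith
  have hmain := t_ampl2 Z (fun t => ‖deriv riemannZeta (1 / 2 + t * I)‖) c hc H Hc
  refine ⟨c / 100, by positivity, ?_⟩
  filter_upwards [hmain, Real.tendsto_sqrt_atTop.eventually_ge_atTop 16] with U h1 h2
  obtain ⟨S, hS, hcard, hsum⟩ := h1
  refine ⟨S, fun t ht => ?_, hcard, hsum⟩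
  obtain ⟨h3, T', h4, h5⟩ := hS t ht
  have h6 := hZm T' (h2.trans h4) t h5
  exact ⟨by linarith [h6.1], h3, h6.2.2.1, h6.2.2.2⟩

end Pool.Agent.H158.GM
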