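import Pool.Agent.H158.GM.Low

set_option autoImplicit false

/-! A one-sided bound of the order `F(x)` with a small constant produces close relations between the ordinates. -/

namespace Pool.Agent.H158.GM

open Filter Topology Set MeasureTheory Complex
open Pool.Agent.W263.BSD Pool.Agent.W120.WM Pool.Agent.Y853.HM Pool.Agent.H198.GM

/-- the inequality at one scale -/
theorem up_scale {s B : ℝ} (hs : s = 1 ∨ s = -1) (hB : 0 < B) (h : OneSided s B) {A : ℝ} (hA : 1 ≤ A) {ε : ℝ} (hε : 0 < ε)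
    {t₀ : ℝ} (ht₀ : 0 < t₀) : ∀ᶠ T : ℝ in atTop, ∀ S : Finset ℝ, Free A T S →
      (∀ t ∈ S, t₀ ≤ t ∧ t ≤ T ∧ riemannZeta (1 / 2 + t * I) = 0) → (S.card : ℝ) ≤ T ^ 3 →
      Real.exp (-(T ^ (A + 4))) * ∑ t ∈ S, ‖lapC g (pt t + (Real.exp (-(T ^ (A + 4))) : ℝ))‖ ≤
        (B * (A + 4) ^ (5 / 4 : ℝ) * (1 + ε) + ε) * Real.log T ^ (5 / 4 : ℝ) := by
  have hg := h.lint hs hB
  obtain ⟨v1, hv1⟩ := eventually_atTop.1 h.ev
  obtain ⟨v0, hv0⟩ : ∃ v0 : ℝ, v0 = max v1 (Real.exp 1) := ⟨_, rfl⟩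
  obtain ⟨K, hK⟩ : ∃ K : ℝ, K = Real.exp (v0 / 2) := ⟨_, rfl⟩
  have hK0 : 0 < K := by rw [hK]; exact Real.exp_pos _
  have hA1 : 0 < A + 4 := by linarith
  -- eventual conditions
  have hX : Tendsto (fun T : ℝ => Real.log T ^ (5 / 4 : ℝ)) atTop atTop :=
    (tendsto_rpow_atTop (by norm_num)).comp Real.tendsto_log_atTop
  have E4 : ∀ᶠ T : ℝ in atTop, (K + 3) / ε ≤ Real.log T ^ (5 / 4 : ℝ) := hX.eventually_ge_atTop _
  have E6 : ∀ᶠ T : ℝ in atTop, K + 5 * B * T ^ (2 * (A + 4)) ≤ Real.exp T := by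
    have h1 := (isLittleO_rpow_exp_atTop (2 * (A + 4))).bound (c := 1 / (2 * (5 * B))) (by positivity)
    filter_upwards [h1, Real.tendsto_exp_atTop.eventually_ge_atTop (2 * K), eventually_ge_atTop 0] with T h2 h3 h4
    rw [Real.norm_of_nonneg (Real.rpow_nonneg h4 _), Real.norm_of_nonneg (Real.exp_pos T).le] at h2
    have h5 := mul_le_mul_of_nonneg_left h2 (show 0 ≤ 5 * B by positivity)
    have e : 5 * B * (1 / (2 * (5 * B)) * Real.exp T) = Real.exp T / 2 := by field_simp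
    rw [e] at h5
    linarith
  have E7 : ∀ᶠ T : ℝ in atTop, 3 + 26400 * Real.log (T + 5) ≤ T := by
    have h1 := (Asymptotics.isLittleO_iff.1 Real.isLittleO_log_id_atTop) (c := 1 / 80000) (by norm_num)
    have h2 := (tendsto_atTop_add_const_right atTop (5 : ℝ) tendsto_id).eventually h1
    filter_upwards [h2, eventually_ge_atTop (100 : ℝ)] with T h3 h4
    simp only [id] at h3
    rw [Real.norm_of_nonneg (Real.log_nonneg (by linarith)), Real.norm_of_nonneg (by linarith)] at h3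
    linarith
  have hδt : Tendsto (fun T : ℝ => Real.exp (-(T ^ (A + 4)))) atTop (𝓝[>] 0) := by
    refine tendsto_nhdsWithin_iff.2 ⟨?_, Eventually.of_forall fun T => mem_Ioi.2 (Real.exp_pos _)⟩
    exact Real.tendsto_exp_atBot.comp (tendsto_neg_atTop_atBot.comp (tendsto_rpow_atTop hA1))
  have hz := (zero_lim hg).abs
  rw [abs_zero] at hz
  have E8 := hδt.eventually (hz.eventually_le_const one_pos)
  have E9 : ∀ᶠ T : ℝ in atTop, Real.exp (-(T ^ A)) ≤ t₀ := by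
    have h1 : Tendsto (fun T : ℝ => Real.exp (-(T ^ A))) atTop (𝓝 0) :=
      Real.tendsto_exp_atBot.comp (tendsto_neg_atTop_atBot.comp (tendsto_rpow_atTop (by linarith)))
    exact h1.eventually_le_const ht₀
  filter_upwards [E4, E6, E7, E8, E9, eventually_ge_atTop (20 : ℝ), eventually_ge_atTop (4 / ε),
    Real.tendsto_log_atTop.eventually_ge_atTop 1] with T e4 e6 e7 e8 e9 hT20 hTε hX1 S hC hS hcard
  have hT0 : 0 < T := by linarith
  obtain ⟨P, hP⟩ : ∃ P : ℝ, P = T ^ A := ⟨_, rfl⟩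
  have hP1 : T ≤ P := by
    rw [hP]
    calc T = T ^ (1 : ℝ) := (Real.rpow_one T).symm
      _ ≤ T ^ A := Real.rpow_le_rpow_of_exponent_le (by linarith) hA
  obtain ⟨R, hR⟩ : ∃ R : ℝ, R = T ^ 4 := ⟨_, rfl⟩
  have hR0 : 0 < R := by rw [hR]; positivity
  have hPT : T ^ (A + 4) = P * R := by
    rw [hP, hR, Real.rpow_add hT0]
    congr 1
    exact_mod_cast Real.rpow_natCast T 4
  have hR3 : R = T * T ^ 3 := by rw [hR]; ring
  have hT3 : (20 : ℝ) ≤ T ^ 3 := by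
    calc (20 : ℝ) ≤ T := hT20
      _ ≤ T ^ 3 := le_self_pow₀ (by linarith) (by norm_num)
  have hPR3 : 20 * (P * T ^ 3) ≤ P * R := by
    rw [hR3]
    have h1 : 0 ≤ P * T ^ 3 := mul_nonneg (by linarith) (by linarith)
    have h2 : 20 * (P * T ^ 3) ≤ T * (P * T ^ 3) := mul_le_mul_of_nonneg_right hT20 h1
    calc 20 * (P * T ^ 3) ≤ T * (P * T ^ 3) := h2
      _ = P * (T * T ^ 3) := by ring
  have hPP3 : P ≤ P * T ^ 3 := le_mul_of_one_le_right (by linarith) (by linarith)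
  have hTP3 : T ^ 3 ≤ P * T ^ 3 := le_mul_of_one_le_left (by positivity) (by linarith)
  have hTT3 : T ≤ T ^ 3 := le_self_pow₀ (by linarith) (by norm_num)
  obtain ⟨δ, hδ⟩ : ∃ δ : ℝ, δ = Real.exp (-(T ^ (A + 4))) := ⟨_, rfl⟩
  rw [← hδ] at e8 ⊢
  have hδ0 : 0 < δ := by rw [hδ]; exact Real.exp_pos _
  have hδi : δ⁻¹ = Real.exp (P * R) := by rw [hδ, ← Real.exp_neg, neg_neg, hPT]
  have hδ20 : δ ≤ 1 := by
    rw [hδ, Real.exp_le_one_iff, hPT]
    linarith
  have hlogδ : Real.log δ⁻¹ = P * R := by rw [hδi, Real.log_exp]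
  have hD : Real.exp (Real.exp 1) ≤ δ⁻¹ := by
    rw [hδi]
    refine Real.exp_le_exp.2 ?_
    have := Real.exp_one_lt_d9
    linarith
  have hSz : ∀ t ∈ S, 0 < t ∧ t ≤ T ∧ riemannZeta (1 / 2 + t * I) = 0 := fun t ht =>
    ⟨by linarith [(hS t ht).1], (hS t ht).2.1, (hS t ht).2.2⟩
  -- the upper bound
  have hup := sidedS hs hB (v0 := v0) (by rw [hv0]; exact le_max_right _ _)
    (fun v hv => hv1 v ((le_max_left _ _).trans (hv0 ▸ hv))) hδ0 hδ20 hD (hg _ (by linarith)) S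
    (η' := Real.exp (-P)) (Q := 3 * Real.exp (3300 * Real.log (R + 5) * (1 + P))) (Real.exp_pos _)
    (by rw [hδ, hPT]; exact Real.exp_le_exp.2 (by linarith)) (fun t ht => mem_W_one ht) (fun x hx => W_mono hx)
    (by positivity) (fun x hx => by
      rw [hP]
      exact far0 hC hSz (fun t ht => e9.trans (hS t ht).1) hx) (fun x hx => by
      have h1 : |x| ≤ R := by
        have h2 := W_abs (U := T) (fun t ht => ⟨(hSz t ht).1, (hSz t ht).2.1⟩) hx
        refine h2.trans ?_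
        calc (S.card : ℝ) * T ≤ T ^ 3 * T := mul_le_mul_of_nonneg_right hcard hT0.le
          _ = R := by rw [hR]; ring
      have h3 := lap_up hg (by linarith) hC hSz hx h1 hδ0 hδ20
      rwa [← hP] at h3)
  rw [← hK] at hup
  -- sizes
  have hq : q δ⁻¹ = (A + 4) ^ (5 / 4 : ℝ) * Real.log T ^ (5 / 4 : ℝ) := by
    unfold q
    rw [hlogδ, ← hPT, Real.log_rpow hT0, Real.mul_rpow hA1.le (by linarith)]
  have hqb : 5 * (B * q δ⁻¹) ≤ Real.exp T - K := by
    have h1 := q_le_sq (exp_le.trans hD)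
    rw [hlogδ, ← hPT] at h1
    have h2 : (T ^ (A + 4)) ^ 2 = T ^ (2 * (A + 4)) := by
      rw [← Real.rpow_natCast, ← Real.rpow_mul hT0.le]
      congr 1
      push_cast
      ring
    rw [h2] at h1
    have h3 := mul_le_mul_of_nonneg_left h1 (show 0 ≤ 5 * B by positivity)
    linarith
  have h2N : ∀ n : ℕ, (2 : ℝ) ^ n ≤ Real.exp n := by
    intro n
    calc (2 : ℝ) ^ n ≤ Real.exp 1 ^ n :=
          pow_le_pow_left₀ (by norm_num) (by have := Real.exp_one_gt_d9; linarith) n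
      _ = Real.exp n := by rw [← Real.exp_nat_mul, mul_one]
  have t1 : δ * (2 ^ (S.card + 1) * ((K + 5 * (B * q δ⁻¹)) / Real.exp (-P))) ≤ 1 := by
    have h1 : (2 : ℝ) ^ (S.card + 1) ≤ Real.exp (T ^ 3 + 1) := by
      refine (h2N _).trans (Real.exp_le_exp.2 ?_)
      push_cast
      linarith
    have h2 : (K + 5 * (B * q δ⁻¹)) / Real.exp (-P) ≤ Real.exp T * Real.exp P := by
      rw [Real.exp_neg, div_inv_eq_mul]
      exact mul_le_mul_of_nonneg_right (by linarith) (Real.exp_pos _).le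
    have h3 : 0 ≤ (K + 5 * (B * q δ⁻¹)) / Real.exp (-P) := by
      have := q_ge hD
      positivity
    calc _ ≤ δ * (Real.exp (T ^ 3 + 1) * (Real.exp T * Real.exp P)) := by gcongr
      _ = Real.exp (-(P * R) + (T ^ 3 + 1 + (T + P))) := by
          rw [hδ, hPT, ← Real.exp_add, ← Real.exp_add, ← Real.exp_add]
      _ ≤ 1 := by
          rw [Real.exp_le_one_iff]
          linarith
  have t2 : δ * (2 ^ S.card * (3 * Real.exp (3300 * Real.log (R + 5) * (1 + P)))) ≤ 1 := by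
    have h1 : (2 : ℝ) ^ S.card ≤ Real.exp (T ^ 3) := (h2N _).trans (Real.exp_le_exp.2 hcard)
    have h3 : (3 : ℝ) ≤ Real.exp 2 := by have := Real.add_one_le_exp (2 : ℝ); linarith
    calc _ ≤ δ * (Real.exp (T ^ 3) * (Real.exp 2 * Real.exp (3300 * Real.log (R + 5) * (1 + P)))) := by gcongr
      _ = Real.exp (-(P * R) + (T ^ 3 + (2 + 3300 * Real.log (R + 5) * (1 + P)))) := by
          rw [hδ, hPT, ← Real.exp_add, ← Real.exp_add, ← Real.exp_add]
      _ ≤ 1 := by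
          rw [Real.exp_le_one_iff]
          have h4 : 0 ≤ Real.log (T + 5) := Real.log_nonneg (by linarith)
          have h8 : Real.log (R + 5) ≤ 4 * Real.log (T + 5) := by
            have h9 : Real.log (R + 5) ≤ Real.log ((T + 5) ^ 4) := by
              refine Real.log_le_log (by linarith) ?_
              rw [hR]
              have h10 : (T + 5) ^ 4 = T ^ 4 + (20 * T ^ 3 + 150 * T ^ 2 + 500 * T + 625) := by ring
              rw [h10]
              have h11 : 0 ≤ 20 * T ^ 3 + 150 * T ^ 2 + 500 * T := by positivity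
              linarith
            rw [Real.log_pow] at h9
            exact_mod_cast h9
          have h5 : 3300 * Real.log (R + 5) * (1 + P) ≤ 3300 * (4 * Real.log (T + 5)) * (2 * P) :=
            mul_le_mul (by linarith) (by linarith) (by linarith) (by linarith)
          have h6 : P * (3 + 26400 * Real.log (T + 5)) ≤ P * T := mul_le_mul_of_nonneg_left e7 (by linarith)
          have h7 : P * (3 + 26400 * Real.log (T + 5)) = 3 * P + 3300 * (4 * Real.log (T + 5)) * (2 * P) := by ring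
          have h12 : P * T ≤ P * T ^ 3 := mul_le_mul_of_nonneg_left hTT3 (by linarith)
          linarith
  have t3 : 1 + 2 * (Real.log δ⁻¹)⁻¹ + 2 * (Real.log δ⁻¹)⁻¹ ^ 2 ≤ 1 + ε := by
    rw [hlogδ]
    have hTPR : T ≤ P * R := by linarith
    have h1 : (P * R)⁻¹ ≤ T⁻¹ := inv_anti₀ hT0 hTPR
    have h2 : T⁻¹ ≤ ε / 4 := by
      rw [← inv_inv (ε / 4)]
      refine inv_anti₀ (by positivity) ?_
      rw [inv_div]
      exact hTε
    have h3 : 0 ≤ (P * R)⁻¹ := by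
      have : 0 < P * R := by linarith
      positivity
    have h4 : (P * R)⁻¹ ≤ 1 := h1.trans (inv_le_one_of_one_le₀ (by linarith))
    have h5 : (P * R)⁻¹ ^ 2 ≤ (P * R)⁻¹ := by rw [sq]; exact mul_le_of_le_one_left h3 h4
    linarith
  have hBq : 0 ≤ B * q δ⁻¹ := by
    have := q_ge hD
    positivity
  have hfin : δ * ∑ t ∈ S, ‖lapC g (pt t + δ)‖ ≤ K + B * q δ⁻¹ * (1 + ε) + 3 := by
    have := mul_le_mul_of_nonneg_left t3 hBq
    linarith
  rw [hq] at hfin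
  obtain ⟨Y, hY⟩ : ∃ Y : ℝ, Y = Real.log T ^ (5 / 4 : ℝ) := ⟨_, rfl⟩
  rw [← hY] at hfin e4 ⊢
  have h5 : K + 3 ≤ ε * Y := by
    rw [div_le_iff₀ hε] at e4
    linarith
  have e : B * ((A + 4) ^ (5 / 4 : ℝ) * Y) * (1 + ε) = B * (A + 4) ^ (5 / 4 : ℝ) * (1 + ε) * Y := by ring
  rw [e] at hfin
  linarith

/-- **Main inequality.** -/
theorem main : ∃ c : ℝ, 0 < c ∧ ∀ A : ℝ, 1 ≤ A → ∀ s B : ℝ, (s = 1 ∨ s = -1) → 0 < B → OneSided s B →
    B < c / A ^ (5 / 4 : ℝ) → ∀ᶠ T : ℝ in atTop, ∃ R : Finset ℝ,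
      (∀ t ∈ R, 0 < t ∧ t ≤ T ∧ riemannZeta (1 / 2 + t * I) = 0 ∧ deriv riemannZeta (1 / 2 + t * I) ≠ 0 ∧ Related A T t) ∧
      c * Real.log T ^ (5 / 4 : ℝ) ≤ ∑ t ∈ R, 1 / ‖(1 / 2 + t * I) * deriv riemannZeta (1 / 2 + t * I)‖ := by
  classical
  obtain ⟨c, hc, hamp⟩ := ampl
  have h55 : (1 : ℝ) ≤ 5 ^ (5 / 4 : ℝ) := Real.one_le_rpow (by norm_num) (by norm_num)
  refine ⟨c / 32 / 5 ^ (5 / 4 : ℝ), by positivity, ?_⟩
  intro A hA s B hs hB h hBc
  have hA0 : 0 < A := by linarith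
  have hA1 : 0 < A + 4 := by linarith
  have hg := h.lint hs hB
  obtain ⟨b, hb⟩ : ∃ b : ℝ, b = B * (A + 4) ^ (5 / 4 : ℝ) := ⟨_, rfl⟩
  have hb0 : 0 < b := by rw [hb]; positivity
  have hb1 : b ≤ c / 32 := by
    have h2 : (A + 4) ^ (5 / 4 : ℝ) ≤ 5 ^ (5 / 4 : ℝ) * A ^ (5 / 4 : ℝ) := by
      rw [← Real.mul_rpow (by norm_num) hA0.le]
      exact Real.rpow_le_rpow (by linarith) (by linarith) (by norm_num)
    rw [div_div, lt_div_iff₀ (by positivity)] at hBc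
    calc b ≤ B * (5 ^ (5 / 4 : ℝ) * A ^ (5 / 4 : ℝ)) := by rw [hb]; exact mul_le_mul_of_nonneg_left h2 hB.le
      _ ≤ c / 32 := hBc.le
  obtain ⟨ε, hε⟩ : ∃ ε : ℝ, ε = min 1 (c / 32) := ⟨_, rfl⟩
  have hε0 : 0 < ε := by rw [hε]; exact lt_min one_pos (by positivity)
  have hε1 : ε ≤ 1 := by rw [hε]; exact min_le_left _ _
  have hε2 : ε ≤ c / 32 := by rw [hε]; exact min_le_right _ _
  have E10 : ∀ᶠ T : ℝ in atTop, 1100 * T ^ 3 ≤ Real.exp T := by
    have h1 := (isLittleO_rpow_exp_atTop 3).bound (c := 1 / 1100) (by norm_num)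
    filter_upwards [h1, eventually_ge_atTop 0] with T h2 h4
    rw [Real.norm_of_nonneg (Real.rpow_nonneg h4 _), Real.norm_of_nonneg (Real.exp_pos T).le] at h2
    have e : T ^ (3 : ℝ) = T ^ 3 := by exact_mod_cast Real.rpow_natCast T 3
    rw [e] at h2
    linarith
  filter_upwards [up_scale hs hB h hA hε0 (t₀ := 16) (by norm_num), hamp, E10, eventually_ge_atTop (20 : ℝ)] with
    T hT2 hT3 hT4 hT5
  obtain ⟨S, hS, hcard, hsum⟩ := hT3
  have hT0 : 0 < T := by linarith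
  obtain ⟨S₁, hS₁⟩ : ∃ S₁ : Finset ℝ, S₁ = S.filter (fun t => ¬ Related A T t) := ⟨_, rfl⟩
  obtain ⟨R, hR⟩ : ∃ R : Finset ℝ, R = S.filter (fun t => Related A T t) := ⟨_, rfl⟩
  have hS₁S : S₁ ⊆ S := by rw [hS₁]; exact Finset.filter_subset _ _
  have hfree : Free A T S₁ := by
    intro S' hS' ε' γ₀ hcl
    obtain ⟨t, ht⟩ : S'.Nonempty := Finset.card_pos.1 (by have := hcl.1; omega)
    have h1 := hS' ht
    rw [hS₁, Finset.mem_filter] at h1
    exact h1.2 ⟨S', ε', γ₀, ht, hcl⟩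
  have hup := hT2 S₁ hfree (fun t ht => ⟨(hS t (hS₁S ht)).1, (hS t (hS₁S ht)).2.1, (hS t (hS₁S ht)).2.2.1⟩)
    (le_trans (by exact_mod_cast Finset.card_le_card hS₁S) hcard)
  obtain ⟨δ, hδ⟩ : ∃ δ : ℝ, δ = Real.exp (-(T ^ (A + 4))) := ⟨_, rfl⟩
  rw [← hδ, ← hb] at hup
  have hδ0 : 0 < δ := by rw [hδ]; exact Real.exp_pos _
  have hTA : T ≤ T ^ (A + 4) := by
    calc T = T ^ (1 : ℝ) := (Real.rpow_one T).symm
      _ ≤ T ^ (A + 4) := Real.rpow_le_rpow_of_exponent_le (by linarith) (by linarith)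
  have hδi : δ⁻¹ = Real.exp (T ^ (A + 4)) := by rw [hδ, ← Real.exp_neg, neg_neg]
  have hδ20 : δ ≤ 1 / 20 := by
    rw [← inv_inv δ, one_div]
    refine inv_anti₀ (by norm_num) ?_
    rw [hδi]
    have := Real.add_one_le_exp (T ^ (A + 4))
    linarith
  have hy := hsum (1100 * T * δ) (by positivity) (by
    rw [le_div_iff₀ (by positivity)]
    have h1 : 1100 * T * δ * T ^ 2 = 1100 * T ^ 3 * δ := by ring
    rw [h1, ← le_div_iff₀ hδ0, one_div, hδi]
    exact hT4.trans (Real.exp_le_exp.2 hTA))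
  obtain ⟨Y, hY⟩ : ∃ Y : ℝ, Y = Real.log T ^ (5 / 4 : ℝ) := ⟨_, rfl⟩
  rw [← hY] at hup hy ⊢
  have hY0 : 0 < Y := by rw [hY]; exact Real.rpow_pos_of_pos (Real.log_pos (by linarith)) _
  have hlow : 1 / 4 * ∑ t ∈ S₁, 1 / (t * (‖deriv riemannZeta (1 / 2 + t * I)‖ + 1100 * T * δ)) ≤
      δ * ∑ t ∈ S₁, ‖lapC g (pt t + δ)‖ := by
    rw [Finset.mul_sum, Finset.mul_sum]
    exact Finset.sum_le_sum fun t ht =>
      lap_low hg (hS t (hS₁S ht)).1 (hS t (hS₁S ht)).2.1 hδ0 hδ20 (hS t (hS₁S ht)).2.2.1 (hS t (hS₁S ht)).2.2.2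
  have hsplit : ∑ t ∈ R, 1 / (t * (‖deriv riemannZeta (1 / 2 + t * I)‖ + 1100 * T * δ)) +
      ∑ t ∈ S₁, 1 / (t * (‖deriv riemannZeta (1 / 2 + t * I)‖ + 1100 * T * δ)) =
      ∑ t ∈ S, 1 / (t * (‖deriv riemannZeta (1 / 2 + t * I)‖ + 1100 * T * δ)) := by
    rw [hR, hS₁]
    exact Finset.sum_filter_add_sum_filter_not S _ _
  have hsmall : b * (1 + ε) + ε ≤ 3 * c / 32 := by nlinarith
  have hsmall' : (b * (1 + ε) + ε) * Y ≤ 3 * c / 32 * Y := mul_le_mul_of_nonneg_right hsmall hY0.le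
  have hRlow : 5 * c / 8 * Y ≤ ∑ t ∈ R, 1 / (t * (‖deriv riemannZeta (1 / 2 + t * I)‖ + 1100 * T * δ)) := by
    linarith
  have hRS : ∀ t ∈ R, t ∈ S ∧ Related A T t := by
    intro t ht
    rw [hR, Finset.mem_filter] at ht
    exact ht
  refine ⟨R, fun t ht => ⟨by linarith [(hS t (hRS t ht).1).1], (hS t (hRS t ht).1).2.1, (hS t (hRS t ht).1).2.2.1,
    norm_pos_iff.1 (hS t (hRS t ht).1).2.2.2, (hRS t ht).2⟩, ?_⟩
  have hterm : ∀ t ∈ R, 1 / (t * (‖deriv riemannZeta (1 / 2 + t * I)‖ + 1100 * T * δ)) ≤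
      2 * (1 / ‖(1 / 2 + t * I) * deriv riemannZeta (1 / 2 + t * I)‖) := by
    intro t ht
    have h16 := (hS t (hRS t ht).1).1
    have hD := (hS t (hRS t ht).1).2.2.2
    have hn := (pt_norm t).2
    rw [abs_of_pos (by linarith)] at hn
    have hn0 : 0 < ‖(1 / 2 + t * I : ℂ)‖ := by
      have := (pt_norm t).1
      rw [abs_of_pos (by linarith)] at this
      exact lt_of_lt_of_le (by linarith) this
    rw [norm_mul, ← mul_div_assoc, mul_one, div_le_div_iff₀ (by positivity) (by positivity), one_mul]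
    have h1 : ‖(1 / 2 + t * I : ℂ)‖ ≤ 2 * t := le_trans hn (by linarith)
    calc ‖(1 / 2 + t * I : ℂ)‖ * ‖deriv riemannZeta (1 / 2 + t * I)‖ ≤
        2 * t * ‖deriv riemannZeta (1 / 2 + t * I)‖ := mul_le_mul_of_nonneg_right h1 hD.le
      _ ≤ 2 * t * (‖deriv riemannZeta (1 / 2 + t * I)‖ + 1100 * T * δ) := by
          refine mul_le_mul_of_nonneg_left ?_ (by linarith)
          have : 0 ≤ 1100 * T * δ := by positivity
          linarith
      _ = 2 * (t * (‖deriv riemannZeta (1 / 2 + t * I)‖ + 1100 * T * δ)) := by ring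
  have hsum2 := Finset.sum_le_sum hterm
  rw [← Finset.mul_sum] at hsum2
  have hconst : c / 32 / 5 ^ (5 / 4 : ℝ) ≤ 5 * c / 16 := by
    have h1 : c / 32 / 5 ^ (5 / 4 : ℝ) ≤ c / 32 := div_le_self (by positivity) h55
    linarith
  have hconst' := mul_le_mul_of_nonneg_right hconst hY0.le
  linarith

end Pool.Agent.H158.GM
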