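import Mathlib

/-! # Gonek's order of magnitude for `M(x)`, or close integer relations between the zeros: parts of the proof

Every `P_X` is one part; its docstring is a complete paper proof. -/

set_option autoImplicit false

namespace Pool.Agent.H158.GM

open Finset Filter Topology

/-- the sums `∑_{t ∈ S} p_t t` with `p_t ∈ {-1, 0, 1}` and at least `m` nonzero `p_t` -/
def W (m : ℕ) (S : Finset ℝ) : Set ℝ :=
  {x : ℝ | ∃ p : ℝ → ℤ, (∀ t ∈ S, |p t| ≤ 1) ∧ m ≤ (S.filter (fun t => p t ≠ 0)).card ∧ x = ∑ t ∈ S, (p t : ℝ) * t}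

/-- **RIESZ** (Riesz products). `e a v` stands for `exp (- i a v)`. The product over `t ∈ S` of the `1 + Re (u t e t v)` is
`1 + ∑_{t ∈ S} Re (u t e t v)` plus a finite combination of functions `e w v` with `w ∈ W 2 S` and coefficients with sum of
absolute values at most `2 ^ |S|`.
Proof. Induction over `S` (`Finset.induction_on`; `S` replaced by `insert a S`, `a ∉ S`). It is convenient to prove at the same time
that the product minus `1` is such a combination with frequencies in `W 1 S` and the same bound `2 ^ |S|`. Write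
`E = Re (u_a e a v) = (u_a / 2) e a v + (conj u_a / 2) e (-a) v` (this is `(z + conj z) / 2`; `conj (e a v) = e (-a) v`), which is a
combination of `e (± a)` with coefficients of total size `‖u_a‖ ≤ 1`, `P` = the product over `S`, `P = 1 + Q = 1 + L + R` with
`Q` a combination of `W 1 S` of size `≤ 2 ^ |S| - 1` and `R` a combination of `W 2 S` of size `≤ 2 ^ |S|` - or similar, see
below - and `L = ∑_{t ∈ S} Re (u t e t v)`. New product: `P (1 + E) = 1 + (Q + E + Q E)` and `= 1 + (L + E) + (R + Q E)`. If the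
bound for `Q` is `2 ^ |S| - 1`, the new one is `(2 ^ |S| - 1) + 1 + (2 ^ |S| - 1) = 2 ^ (|S| + 1) - 1`. If the bound for `R` is
`2 ^ |S| - 1`, the new one is `2 (2 ^ |S| - 1) ≤ 2 ^ (|S| + 1) - 1`. So prove both with the bound `2 ^ |S| - 1`. Frequencies:
for `x = ∑_{t ∈ S} p_t t ∈ W m S` the numbers `x` and `x ± a` are in `W m (insert a S)` and `W (m + 1) (insert a S)`: extend `p` by
`p a = 0` or `± 1` (`Function.update`), and `± a ∈ W 1 (insert a S)`. To handle combinations define a predicate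
`TP (V : Set ℝ) (K : ℝ) (f : ℝ → ℂ) := ∃ (n : ℕ) (c : Fin n → ℂ) (w : Fin n → ℝ), (∀ i, w i ∈ V) ∧ ∑ i, ‖c i‖ ≤ K ∧ ∀ v, f v = ∑ i, c i * e (w i) v`
(perhaps first with `List (ℂ × ℝ)` instead of `Fin n`, where sums are `++` and products with `c e a` are `map`). -/
def P_RIESZ : Prop :=
  ∀ e : ℝ → ℝ → ℂ, (∀ a b v, e (a + b) v = e a v * e b v) → (∀ a v, (starRingEnd ℂ) (e a v) = e (-a) v) → (∀ v, e 0 v = 1) →
    ∀ (S : Finset ℝ) (u : ℝ → ℂ), (∀ t ∈ S, ‖u t‖ ≤ 1) →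
      ∃ (n : ℕ) (c : Fin n → ℂ) (w : Fin n → ℝ), (∀ i, w i ∈ W 2 S) ∧ ∑ i, ‖c i‖ ≤ 2 ^ S.card ∧
        ∀ v : ℝ, ((∏ t ∈ S, (1 + (u t * e t v).re) : ℝ) : ℂ) =
          1 + ∑ t ∈ S, (((u t * e t v).re : ℝ) : ℂ) + ∑ i, c i * e (w i) v

/-- **AMPL** (dyadic summation). Positive numbers `D t` on finite sets `Z T ⊆ (T, 2T]` with
`∑_{t ∈ Z T} 1 / D t ≥ c T (log T)^(1/4)` for all large `T`. For all large `T` there is a finite set `S` of numbers `t ≤ T`, each in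
some `Z T'` with `T' ≥ √T`, such that for all `0 < y ≤ 1 / T ^ 2` the sum over `t ∈ S` of `1 / (t (D t + y))` is at least
`(c / 100) (log T)^(5/4)`.
Proof. Let `K = ⌊log T / (2 log 2)⌋₊`, so `T / 2 ^ K ≥ √T`, and `S = ⋃_{k < K} Z (T / 2 ^ (k+1))`, a disjoint union since
`Z (T / 2 ^ (k+1)) ⊆ (T / 2 ^ (k+1), T / 2 ^ k]` (`Finset.sum_biUnion`). For `T` large the hypotheses hold at all `T / 2 ^ (k+1) ≥ √T`
and `log (T / 2 ^ (k+1)) ≥ (1/2) log T`. Block `k`, `U = T / 2 ^ (k+1)`. If `D t ≥ y` for all `t` of the block,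
`1 / (t (D t + y)) ≥ 1 / (2 U · 2 D t)`, and the sum over the block is at least `c (log U)^(1/4) / 4 ≥ (c / 5) (log T)^(1/4)`
(`(1/2)^(1/4) ≥ 4/5`, for instance because `(4/5)^4 ≤ 1/2`). Otherwise one term is `≥ 1 / (t · 2 y) ≥ T / 2`, which is at least
`(c / 5) (log T) ^ (1/4)` for large `T`. There are `K ≥ log T / (2 log 2) - 1 ≥ (1/2) log T` blocks for large `T`
(`log 2 < 0.7`), so the sum is at least `(c / 10) (log T)^(5/4)`. -/
def P_AMPL : Prop :=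
  ∀ (Z : ℝ → Finset ℝ) (D : ℝ → ℝ) (c : ℝ), 0 < c →
    (∀ᶠ T : ℝ in atTop, (∀ t ∈ Z T, T < t ∧ t ≤ 2 * T ∧ 0 < D t) ∧
      c * T * Real.log T ^ (1 / 4 : ℝ) ≤ ∑ t ∈ Z T, (D t)⁻¹) →
    ∀ᶠ T : ℝ in atTop, ∃ S : Finset ℝ, (∀ t ∈ S, t ≤ T ∧ ∃ T' : ℝ, Real.sqrt T ≤ T' ∧ t ∈ Z T') ∧
      ∀ y : ℝ, 0 < y → y ≤ 1 / T ^ 2 →
        c / 100 * Real.log T ^ (5 / 4 : ℝ) ≤ ∑ t ∈ S, 1 / (t * (D t + y))

end Pool.Agent.H158.GM
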